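import Pool.Agent.H235R2.Turn

set_option autoImplicit false

namespace Pool.Agent.H235R2.Turn

open Complex Set Pool.Agent.Helper770.VanKampen

lemma Th_sub {p q : ℝ → ℂ} {L : ℝ × ℝ → ℂ} (hL : Log2 p q L) {u v : ℝ → ℂ} (α β : ℝ → ℝ)
    (hα : Continuous α) (hβ : Continuous β) (hu : ∀ r, u r = p (α r)) (hv : ∀ r, v r = q (β r))
    (hne : ∀ r, p (α (1 - r)) ≠ q (β r)) : Th u v = L (α 0, β 1) - L (α 1, β 0) := by
  have := inc_path hL (fun r => α (1 - r)) β (by fun_prop) hβ hne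
  unfold Th
  simp only [hu, hv]
  rw [this]
  norm_num

/-- The two curves of a `cat` curve as subcurves. -/
lemma left_eq {a m b : ℝ → ℂ} (ha : Curve a) (hm : Curve m) (hb : Curve b) (r : ℝ) :
    a r = cat a m b (cl r / 3) := by
  rw [cat_left ha hm hb (by have := cl_le r; linarith), ha.clamp r]
  congr 1; ring

lemma right_eq {a m b : ℝ → ℂ} (ha : Curve a) (hm : Curve m) (hb : Curve b) (h1 : a 1 = m 0)
    (h2 : m 1 = b 1) (r : ℝ) : b r = cat a m b (1 - cl r / 3) := by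
  rw [cat_right ha hm hb h1 h2 (by have := cl_le r; linarith), hb.clamp r]
  congr 1; ring

/-- every value of a `cat` curve. -/
lemma cat_cases {a m b : ℝ → ℂ} (ha : Curve a) (hm : Curve m) (hb : Curve b) (h1 : a 1 = m 0)
    (h2 : m 1 = b 1) {s : ℝ} (hs : s ∈ Icc (0 : ℝ) 1) :
    (3 * s ∈ Icc (0 : ℝ) 1 ∧ cat a m b s = a (3 * s)) ∨
    (3 * s - 1 ∈ Icc (0 : ℝ) 1 ∧ cat a m b s = m (3 * s - 1)) ∨
    (3 - 3 * s ∈ Icc (0 : ℝ) 1 ∧ cat a m b s = b (3 - 3 * s)) := by
  by_cases h : s ≤ 1 / 3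
  · exact Or.inl ⟨⟨by linarith [hs.1], by linarith⟩, cat_left ha hm hb h⟩
  · by_cases h' : s ≤ 2 / 3
    · exact Or.inr (Or.inl ⟨⟨by linarith, by linarith⟩, cat_mid ha hm hb h1 (by linarith) h'⟩)
    · exact Or.inr (Or.inr ⟨⟨by linarith [hs.2], by linarith⟩,
        cat_right ha hm hb h1 h2 (by linarith)⟩)

/-- Two curves with disjoint images. -/
def Apart (u v : ℝ → ℂ) : Prop := ∀ s ∈ Icc (0 : ℝ) 1, ∀ t ∈ Icc (0 : ℝ) 1, u s ≠ v t

lemma Apart.symm {u v : ℝ → ℂ} (h : Apart u v) : Apart v u :=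
  fun s hs t ht e => h t ht s hs e.symm

/-- **Loop lemma.** Two loops at `x` that meet only in `x` do not alternate at `x`. -/
theorem loop {x : ℂ} {a m b a' m' b' : ℝ → ℂ} (ha : Curve a) (hm : Curve m) (hb : Curve b)
    (ha' : Curve a') (hm' : Curve m') (hb' : Curve b')
    (h1 : a 1 = m 0) (h2 : m 1 = b 1) (h1' : a' 1 = m' 0) (h2' : m' 1 = b' 1)
    (haa : Meet x a a') (hab : Meet x a b') (hba : Meet x b a') (hbb : Meet x b b')
    (ham : Apart a m') (hbm : Apart b m') (hma : Apart m a') (hmb : Apart m b')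
    (hmm : Apart m m') : Rot a b a' = Rot a b b' := by
  set p := cat a m b with hp
  set q := cat a' m' b' with hq
  have cp : Curve p := cat_curve ha hm hb
  have cq : Curve q := cat_curve ha' hm' hb'
  have hends : Ends p q := by
    intro s hs t ht he
    rcases cat_cases ha hm hb h1 h2 hs with ⟨k1, e1⟩ | ⟨k1, e1⟩ | ⟨k1, e1⟩ <;>
    rcases cat_cases ha' hm' hb' h1' h2' ht with ⟨k2, e2⟩ | ⟨k2, e2⟩ | ⟨k2, e2⟩ <;>
    rw [hp, hq, e1, e2] at he
    · obtain ⟨h1, h2⟩ := haa.2.2 _ k1 _ k2 he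
      exact ⟨Or.inl (by linarith), Or.inl (by linarith)⟩
    · exact absurd he (ham _ k1 _ k2)
    · obtain ⟨h1, h2⟩ := hab.2.2 _ k1 _ k2 he
      exact ⟨Or.inl (by linarith), Or.inr (by linarith)⟩
    · exact absurd he (hma _ k1 _ k2)
    · exact absurd he (hmm _ k1 _ k2)
    · exact absurd he (hmb _ k1 _ k2)
    · obtain ⟨h1, h2⟩ := hba.2.2 _ k1 _ k2 he
      exact ⟨Or.inr (by linarith), Or.inl (by linarith)⟩
    · exact absurd he (hbm _ k1 _ k2)
    · obtain ⟨h1, h2⟩ := hbb.2.2 _ k1 _ k2 he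
      exact ⟨Or.inr (by linarith), Or.inr (by linarith)⟩
  obtain ⟨L, hL⟩ := exists_log2' cp cq hends
  have ne1 : ∀ s t : ℝ, s ∈ Icc (0 : ℝ) 1 → t ∈ Ioo (0 : ℝ) 1 → p s ≠ q t := by
    intro s t hs ht he
    rcases (hends s hs t ⟨ht.1.le, ht.2.le⟩ he).2 with h | h <;> [have := ht.1; have := ht.2] <;>
      linarith
  have ne2 : ∀ s t : ℝ, s ∈ Ioo (0 : ℝ) 1 → t ∈ Icc (0 : ℝ) 1 → p s ≠ q t := by
    intro s t hs ht he
    rcases (hends s ⟨hs.1.le, hs.2.le⟩ t ht he).1 with h | h <;> [have := hs.1; have := hs.2] <;>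
      linarith
  have c3 : Continuous fun r : ℝ => cl r / 3 := cl_cont.div_const _
  have c4 : Continuous fun r : ℝ => 1 - cl r / 3 := continuous_const.sub c3
  have clz : ∀ r : ℝ, 0 ≤ cl r := cl_nonneg
  have clo : ∀ r : ℝ, cl r ≤ 1 := cl_le
  -- along the antidiagonal not both are at a corner
  have hanti : ∀ r : ℝ, cl (1 - r) ≠ 0 ∨ cl r ≠ 0 := by
    intro r
    by_contra hcon
    push Not at hcon
    rw [cl_eq_zero_iff, cl_eq_zero_iff] at hcon
    linarith [hcon.1, hcon.2]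
  have ev1 := left_eq ha hm hb
  have ev2 := right_eq ha hm hb h1 h2
  have ev3 := left_eq ha' hm' hb'
  have ev4 := right_eq ha' hm' hb' h1' h2'
  have gen : ∀ α β : ℝ → ℝ, (∀ r, (α r = cl r / 3 ∨ α r = 1 - cl r / 3)) →
      (∀ r, (β r = cl r / 3 ∨ β r = 1 - cl r / 3)) → ∀ r, p (α (1 - r)) ≠ q (β r) := by
    intro α β hα hβ r
    have z1 := clz (1 - r)
    have o1 := clo (1 - r)
    have z2 := clz r
    have o2 := clo r
    rcases hanti r with h | h
    · have h' : 0 < cl (1 - r) := lt_of_le_of_ne z1 (Ne.symm h)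
      apply ne2
      · rcases hα (1 - r) with e | e <;> rw [e] <;> constructor <;> linarith
      · rcases hβ r with e | e <;> rw [e] <;> constructor <;> linarith
    · have h' : 0 < cl r := lt_of_le_of_ne z2 (Ne.symm h)
      apply ne1
      · rcases hα (1 - r) with e | e <;> rw [e] <;> constructor <;> linarith
      · rcases hβ r with e | e <;> rw [e] <;> constructor <;> linarith
  have t1 := Th_sub hL _ _ c3 c3 ev1 ev3 (gen _ _ (fun _ => Or.inl rfl) (fun _ => Or.inl rfl))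
  have t2 := Th_sub hL _ _ c4 c3 ev2 ev3 (gen _ _ (fun _ => Or.inr rfl) (fun _ => Or.inl rfl))
  have t3 := Th_sub hL _ _ c3 c4 ev1 ev4 (gen _ _ (fun _ => Or.inl rfl) (fun _ => Or.inr rfl))
  have t4 := Th_sub hL _ _ c4 c4 ev2 ev4 (gen _ _ (fun _ => Or.inr rfl) (fun _ => Or.inr rfl))
  have p0 : p 0 = x := by rw [hp, cat_left ha hm hb (by norm_num), mul_zero, haa.1]
  have p1 : p 1 = x := by
    rw [hp, cat_right ha hm hb h1 h2 (by norm_num), mul_one, sub_self, hba.1]
  have q0 : q 0 = x := by rw [hq, cat_left ha' hm' hb' (by norm_num), mul_zero, haa.2.1]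
  have q1 : q 1 = x := by
    rw [hq, cat_right ha' hm' hb' h1' h2' (by norm_num), mul_one, sub_self, hab.2.1]
  have c5 : Continuous fun r : ℝ => 1 / 3 + cl r / 3 := continuous_const.add c3
  have m5 : ∀ r : ℝ, 1 / 3 + cl r / 3 ∈ Ioo (0 : ℝ) 1 := fun r =>
    ⟨by linarith [clz r], by linarith [clo r]⟩
  have b1 := branch hL hL (fun _ => 1) (fun r => 1 / 3 + cl r / 3) (fun _ => 0)
    (fun r => 1 / 3 + cl r / 3) continuous_const c5 continuous_const c5
    (fun r => ne1 _ _ (by norm_num) (m5 r)) (fun r => ne1 _ _ (by norm_num) (m5 r))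
    (fun r => by rw [p0, p1])
  have b2 := branch hL hL (fun r => 1 / 3 + cl r / 3) (fun _ => 1) (fun r => 1 / 3 + cl r / 3)
    (fun _ => 0) c5 continuous_const c5 continuous_const
    (fun r => ne2 _ _ (m5 r) (by norm_num)) (fun r => ne2 _ _ (m5 r) (by norm_num))
    (fun r => by rw [q0, q1])
  simp only [cl_zero, cl_one] at t1 t2 t3 t4 b1 b2
  have s1 := Th_symm ha ha' haa
  have s2 := Th_symm ha hb' hab
  have n1 : (1 / 3 + 0 / 3 : ℝ) = 1 / 3 := by norm_num
  have n2 : (1 / 3 + 1 / 3 : ℝ) = 1 - 1 / 3 := by norm_num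
  have n3 : (0 / 3 : ℝ) = 0 := by norm_num
  have n4 : (1 - 0 / 3 : ℝ) = 1 := by norm_num
  simp only [n2, n3, sub_zero, add_zero] at t1 t2 t3 t4 b1 b2
  unfold Rot
  rw [s1, s2, t1, t2, t3, t4]
  linear_combination (-1) * b1 + b2

/-- part of the increments of a path from `x` to `y`. -/
noncomputable def Wd (x y : ℂ) (p : ℝ → ℂ) : ℂ :=
  inc (fun r => p (1 / 3 + cl r * (2 / 3)) - x) - inc (fun r => p (cl r * (2 / 3)) - y)

lemma theta_pair {x y : ℂ} {a m b a' m' b' : ℝ → ℂ} (ha : Curve a) (hm : Curve m) (hb : Curve b)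
    (ha' : Curve a') (hm' : Curve m') (hb' : Curve b')
    (h1 : a 1 = m 0) (h2 : m 1 = b 1) (h1' : a' 1 = m' 0) (h2' : m' 1 = b' 1)
    (haa : Meet x a a') (hbb : Meet y b b') (hab : Apart a b') (hba : Apart b a')
    (ham : Apart a m') (hbm : Apart b m') (hma : Apart m a') (hmb : Apart m b')
    (hmm : Apart m m') :
    Th a a' + Th b b' = Wd x y (cat a m b) - Wd x y (cat a' m' b') := by
  set p := cat a m b with hp
  set q := cat a' m' b' with hq
  have cp : Curve p := cat_curve ha hm hb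
  have cq : Curve q := cat_curve ha' hm' hb'
  have hth : ∀ s ∈ Icc (0 : ℝ) 1, ∀ t ∈ Icc (0 : ℝ) 1, p s = q t →
      (s = 0 ∧ t = 0) ∨ (s = 1 ∧ t = 1) := by
    intro s hs t ht he
    rcases cat_cases ha hm hb h1 h2 hs with ⟨k1, e1⟩ | ⟨k1, e1⟩ | ⟨k1, e1⟩ <;>
    rcases cat_cases ha' hm' hb' h1' h2' ht with ⟨k2, e2⟩ | ⟨k2, e2⟩ | ⟨k2, e2⟩ <;>
    rw [hp, hq, e1, e2] at he
    · obtain ⟨h1, h2⟩ := haa.2.2 _ k1 _ k2 he
      exact Or.inl ⟨by linarith, by linarith⟩
    · exact absurd he (ham _ k1 _ k2)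
    · exact absurd he (hab _ k1 _ k2)
    · exact absurd he (hma _ k1 _ k2)
    · exact absurd he (hmm _ k1 _ k2)
    · exact absurd he (hmb _ k1 _ k2)
    · exact absurd he (hba _ k1 _ k2)
    · exact absurd he (hbm _ k1 _ k2)
    · obtain ⟨h1, h2⟩ := hbb.2.2 _ k1 _ k2 he
      exact Or.inr ⟨by linarith, by linarith⟩
  have hends : Ends p q := by
    intro s hs t ht he
    rcases hth s hs t ht he with ⟨h1, h2⟩ | ⟨h1, h2⟩
    · exact ⟨Or.inl h1, Or.inl h2⟩
    · exact ⟨Or.inr h1, Or.inr h2⟩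
  obtain ⟨L, hL⟩ := exists_log2' cp cq hends
  have c3 : Continuous fun r : ℝ => cl r / 3 := cl_cont.div_const _
  have c4 : Continuous fun r : ℝ => 1 - cl r / 3 := continuous_const.sub c3
  have clz : ∀ r : ℝ, 0 ≤ cl r := cl_nonneg
  have clo : ∀ r : ℝ, cl r ≤ 1 := cl_le
  have hanti : ∀ r : ℝ, cl (1 - r) ≠ 0 ∨ cl r ≠ 0 := by
    intro r
    by_contra hcon
    push Not at hcon
    rw [cl_eq_zero_iff, cl_eq_zero_iff] at hcon
    linarith [hcon.1, hcon.2]
  have ne0 : ∀ s t : ℝ, s ∈ Icc (0 : ℝ) 1 → t ∈ Icc (0 : ℝ) 1 → (0 < s ∨ 0 < t) →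
      (s < 1 ∨ t < 1) → p s ≠ q t := by
    intro s t hs ht h01 h11 he
    rcases hth s hs t ht he with ⟨h1, h2⟩ | ⟨h1, h2⟩
    · rcases h01 with h | h <;> linarith
    · rcases h11 with h | h <;> linarith
  have t1 := Th_sub hL _ _ c3 c3 (left_eq ha hm hb) (left_eq ha' hm' hb') (by
    intro r
    have z1 := clz (1 - r)
    have o1 := clo (1 - r)
    have z2 := clz r
    have o2 := clo r
    apply ne0
    · constructor <;> linarith
    · constructor <;> linarith
    · rcases hanti r with h | h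
      · left; have := lt_of_le_of_ne z1 (Ne.symm h); linarith
      · right; have := lt_of_le_of_ne z2 (Ne.symm h); linarith
    · left; linarith)
  have t2 := Th_sub hL _ _ c4 c4 (right_eq ha hm hb h1 h2) (right_eq ha' hm' hb' h1' h2') (by
    intro r
    have z1 := clz (1 - r)
    have o1 := clo (1 - r)
    have z2 := clz r
    have o2 := clo r
    apply ne0
    · constructor <;> linarith
    · constructor <;> linarith
    · left; linarith
    · rcases hanti r with h | h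
      · left; have := lt_of_le_of_ne z1 (Ne.symm h); linarith
      · right; have := lt_of_le_of_ne z2 (Ne.symm h); linarith)
  have p0 : p 0 = x := by rw [hp, cat_left ha hm hb (by norm_num), mul_zero, haa.1]
  have p1 : p 1 = y := by
    rw [hp, cat_right ha hm hb h1 h2 (by norm_num), mul_one, sub_self, hbb.1]
  have q0 : q 0 = x := by rw [hq, cat_left ha' hm' hb' (by norm_num), mul_zero, haa.2.1]
  have q1 : q 1 = y := by
    rw [hq, cat_right ha' hm' hb' h1' h2' (by norm_num), mul_one, sub_self, hbb.2.1]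
  have c5 : Continuous fun r : ℝ => 1 / 3 + cl r * (2 / 3) :=
    continuous_const.add (cl_cont.mul continuous_const)
  have c6 : Continuous fun r : ℝ => cl r * (2 / 3) := cl_cont.mul continuous_const
  have i1 := inc_path hL (fun _ => 0) (fun r => 1 / 3 + cl r * (2 / 3)) continuous_const c5
    (fun r => ne0 _ _ (by norm_num) ⟨by linarith [clz r], by linarith [clo r]⟩
      (Or.inr (by linarith [clz r])) (Or.inl (by norm_num)))
  have i2 := inc_path hL (fun r => cl r * (2 / 3)) (fun _ => 1) c6 continuous_const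
    (fun r => ne0 _ _ ⟨by linarith [clz r], by linarith [clo r]⟩ (by norm_num)
      (Or.inr (by norm_num)) (Or.inl (by linarith [clo r])))
  have i3 := inc_path hL (fun r => 1 / 3 + cl r * (2 / 3)) (fun _ => 0) c5 continuous_const
    (fun r => ne0 _ _ ⟨by linarith [clz r], by linarith [clo r]⟩ (by norm_num)
      (Or.inl (by linarith [clz r])) (Or.inr (by norm_num)))
  have i4 := inc_path hL (fun _ => 1) (fun r => cl r * (2 / 3)) continuous_const c6
    (fun r => ne0 _ _ (by norm_num) ⟨by linarith [clz r], by linarith [clo r]⟩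
      (Or.inl (by norm_num)) (Or.inr (by linarith [clo r])))
  have j1 : inc (fun r => q (1 / 3 + cl r * (2 / 3)) - x) =
      inc (fun r => p 0 - q (1 / 3 + cl r * (2 / 3))) := by
    rw [← inc_neg (fun r => p 0 - q (1 / 3 + cl r * (2 / 3)))]
    · congr 1; funext r; rw [p0]; ring
    · exact continuous_const.sub (cq.cont.comp c5)
    · intro r
      apply sub_ne_zero.mpr
      exact ne0 _ _ (by norm_num) ⟨by linarith [clz r], by linarith [clo r]⟩
        (Or.inr (by linarith [clz r])) (Or.inl (by norm_num))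
  have j4 : inc (fun r => q (cl r * (2 / 3)) - y) = inc (fun r => p 1 - q (cl r * (2 / 3))) := by
    rw [← inc_neg (fun r => p 1 - q (cl r * (2 / 3)))]
    · congr 1; funext r; rw [p1]; ring
    · exact continuous_const.sub (cq.cont.comp c6)
    · intro r
      apply sub_ne_zero.mpr
      exact ne0 _ _ (by norm_num) ⟨by linarith [clz r], by linarith [clo r]⟩
        (Or.inl (by norm_num)) (Or.inr (by linarith [clo r]))
  have j2 : inc (fun r => p (cl r * (2 / 3)) - y) = inc (fun r => p (cl r * (2 / 3)) - q 1) := by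
    rw [q1]
  have j3 : inc (fun r => p (1 / 3 + cl r * (2 / 3)) - x) =
      inc (fun r => p (1 / 3 + cl r * (2 / 3)) - q 0) := by
    rw [q0]
  unfold Wd
  rw [t1, t2, j1, j2, j3, j4, i1, i2, i3, i4]
  have n2 : (1 / 3 + 2 / 3 : ℝ) = 1 := by norm_num
  have n3 : (cl 0 / 3 : ℝ) = 0 := by simp
  have n3' : (cl 1 / 3 : ℝ) = 1 / 3 := by simp
  have n4 : (1 - 0 : ℝ) = 1 := by norm_num
  have n4' : (1 - 1 / 3 : ℝ) = 2 / 3 := by norm_num
  have n5 : (cl 1 * (2 / 3) : ℝ) = 2 / 3 := by simp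
  have n6 : (cl 0 * (2 / 3) : ℝ) = 0 := by simp
  simp only [add_zero, n2, n3, n3', n4, n4', n5, n6]
  ring

/-- **Theta lemma.** The rotations of three internally disjoint paths at their two common ends
are opposite. -/
theorem theta {x y : ℂ} {a m b : Fin 3 → ℝ → ℂ} (ha : ∀ i, Curve (a i)) (hm : ∀ i, Curve (m i))
    (hb : ∀ i, Curve (b i)) (h1 : ∀ i, a i 1 = m i 0) (h2 : ∀ i, m i 1 = b i 1)
    (haa : ∀ i j, i ≠ j → Meet x (a i) (a j)) (hbb : ∀ i j, i ≠ j → Meet y (b i) (b j))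
    (hab : ∀ i j, i ≠ j → Apart (a i) (b j)) (ham : ∀ i j, i ≠ j → Apart (a i) (m j))
    (hbm : ∀ i j, i ≠ j → Apart (b i) (m j)) (hmm : ∀ i j, i ≠ j → Apart (m i) (m j)) :
    Rot (a 0) (a 1) (a 2) = - Rot (b 0) (b 1) (b 2) := by
  have key : ∀ i j, i ≠ j → Th (a i) (a j) + Th (b i) (b j) =
      Wd x y (cat (a i) (m i) (b i)) - Wd x y (cat (a j) (m j) (b j)) := fun i j hij =>
    theta_pair (ha i) (hm i) (hb i) (ha j) (hm j) (hb j) (h1 i) (h2 i) (h1 j) (h2 j)
      (haa i j hij) (hbb i j hij) (hab i j hij) (hab j i hij.symm).symm (ham i j hij)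
      (hbm i j hij) (ham j i hij.symm).symm (hbm j i hij.symm).symm (hmm i j hij)
  have k1 := key 0 1 (by decide)
  have k2 := key 1 2 (by decide)
  have k3 := key 2 0 (by decide)
  unfold Rot
  linear_combination k1 + k2 + k3

end Pool.Agent.H235R2.Turn
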