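import Pool.Agent.H235R2.SefeDefs
import Pool.Agent.H235R2.Loops

set_option autoImplicit false

namespace Pool.Agent.H235R2.NoSefe

open Set Topology Pool.Agent.H235R2.Sefe Pool.Agent.H235R2.Turn

variable {V : Type} {G : SimpleGraph V}

/-- image of an edge -/
def img (D : Drawing G) (e : Sym2 V) : Set ℂ := D.arc e '' Icc 0 1

lemma pos_mem_img (D : Drawing G) {e : Sym2 V} (he : e ∈ G.edgeSet) {w : V}
    (hw : D.pos w ∈ img D e) : w ∈ e := by
  induction e with
  | h u v =>
    obtain ⟨t, ht, hte⟩ := hw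
    have hadj : G.Adj u v := he
    have ends := D.arc_ends u v hadj
    rcases eq_or_lt_of_le ht.1 with h0 | h0
    · rw [← h0] at hte
      rcases ends with ⟨e0, -⟩ | ⟨e0, -⟩
      · rw [e0] at hte
        rw [← D.pos_injective hte]; exact Sym2.mem_mk_left _ _
      · rw [e0] at hte
        rw [← D.pos_injective hte]; exact Sym2.mem_mk_right _ _
    · rcases eq_or_lt_of_le ht.2 with h1 | h1
      · rw [h1] at hte
        rcases ends with ⟨-, e0⟩ | ⟨-, e0⟩
        · rw [e0] at hte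
          rw [← D.pos_injective hte]; exact Sym2.mem_mk_right _ _
        · rw [e0] at hte
          rw [← D.pos_injective hte]; exact Sym2.mem_mk_left _ _
      · exact absurd hte (D.arc_avoids _ he t ⟨h0, h1⟩ w)

/-- an end of an arc is a vertex of the edge -/
lemma end_pos (D : Drawing G) {e : Sym2 V} (he : e ∈ G.edgeSet) {t : ℝ} (ht : t = 0 ∨ t = 1) :
    ∃ v ∈ e, D.arc e t = D.pos v := by
  induction e with
  | h u v =>
    have ends := D.arc_ends u v he
    rcases ht with rfl | rfl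
    · rcases ends with ⟨e0, -⟩ | ⟨e0, -⟩
      · exact ⟨u, Sym2.mem_mk_left _ _, e0⟩
      · exact ⟨v, Sym2.mem_mk_right _ _, e0⟩
    · rcases ends with ⟨-, e0⟩ | ⟨-, e0⟩
      · exact ⟨v, Sym2.mem_mk_right _ _, e0⟩
      · exact ⟨u, Sym2.mem_mk_left _ _, e0⟩

lemma inter (D : Drawing G) (hD : D.Planar) {e f : Sym2 V} (he : e ∈ G.edgeSet)
    (hf : f ∈ G.edgeSet) (hef : e ≠ f) {z : ℂ} (hz : z ∈ img D e) (hz' : z ∈ img D f) :
    ∃ v, v ∈ e ∧ v ∈ f ∧ z = D.pos v := by
  obtain ⟨s, hs, hse⟩ := id hz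
  obtain ⟨t, ht, hte⟩ := id hz'
  by_cases h1 : s = 0 ∨ s = 1
  · obtain ⟨v, hv, hv'⟩ := end_pos D he h1
    refine ⟨v, hv, ?_, hse.symm.trans hv'⟩
    apply pos_mem_img D hf
    rw [← hv', hse]; exact hz'
  · by_cases h2 : t = 0 ∨ t = 1
    · obtain ⟨v, hv, hv'⟩ := end_pos D hf h2
      refine ⟨v, ?_, hv, hte.symm.trans hv'⟩
      apply pos_mem_img D he
      rw [← hv', hte]; exact hz
    · exfalso
      push Not at h1 h2
      have : z ∈ D.crossings e f := ⟨⟨s, ⟨lt_of_le_of_ne hs.1 (Ne.symm h1.1),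
        lt_of_le_of_ne hs.2 h1.2⟩, hse⟩, ⟨t, ⟨lt_of_le_of_ne ht.1 (Ne.symm h2.1),
        lt_of_le_of_ne ht.2 h2.2⟩, hte⟩⟩
      rw [hD e he f hf hef] at this
      exact this

/-- an oriented parametrisation of an edge -/
structure Par (D : Drawing G) (u v : V) (c : ℝ → ℂ) : Prop where
  curve : Curve c
  zero : c 0 = D.pos u
  one : c 1 = D.pos v
  inj : ∀ s ∈ Icc (0 : ℝ) 1, ∀ t ∈ Icc (0 : ℝ) 1, c s = c t → s = t
  image : c '' Icc 0 1 = img D s(u, v)

lemma exists_par (D : Drawing G) {u v : V} (h : G.Adj u v) : ∃ c, Par D u v c := by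
  have hc := D.arc_continuousOn s(u, v) h
  have hi := D.arc_injOn s(u, v) h
  rcases D.arc_ends u v h with ⟨h0, h1⟩ | ⟨h0, h1⟩
  · refine ⟨fun t => D.arc s(u, v) (cl t), curve_of hc, by simpa using h0, by simpa using h1,
      ?_, ?_⟩
    · intro s hs t ht he
      simp only [cl_of_mem hs, cl_of_mem ht] at he
      exact hi hs ht he
    · apply image_congr
      intro t ht
      rw [cl_of_mem ht]
  · have hc' : ContinuousOn (fun t => D.arc s(u, v) (1 - t)) (Icc 0 1) := by
      apply hc.comp (by fun_prop)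
      intro t ht
      exact ⟨by linarith [ht.2], by linarith [ht.1]⟩
    refine ⟨fun t => D.arc s(u, v) (1 - cl t), curve_of hc', by simpa using h1, by simpa using h0,
      ?_, ?_⟩
    · intro s hs t ht he
      simp only [cl_of_mem hs, cl_of_mem ht] at he
      have := hi (⟨by linarith [hs.2], by linarith [hs.1]⟩ : (1 - s) ∈ Icc (0 : ℝ) 1)
        (⟨by linarith [ht.2], by linarith [ht.1]⟩ : (1 - t) ∈ Icc (0 : ℝ) 1) he
      linarith
    · ext z
      constructor
      · rintro ⟨t, ht, rfl⟩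
        exact ⟨1 - cl t, ⟨by linarith [cl_le t], by linarith [cl_nonneg t]⟩, rfl⟩
      · rintro ⟨t, ht, rfl⟩
        refine ⟨1 - t, ⟨by linarith [ht.2], by linarith [ht.1]⟩, ?_⟩
        simp only
        rw [cl_of_mem ⟨by linarith [ht.2], by linarith [ht.1]⟩]
        congr 1; ring

lemma joined_edge (D : Drawing G) {u v : V} (h : G.Adj u v) :
    JoinedIn (img D s(u, v)) (D.pos u) (D.pos v) := by
  obtain ⟨c, hc⟩ := exists_par D h
  rw [← hc.image, ← hc.zero, ← hc.one]
  refine JoinedIn.ofLine hc.curve.cont.continuousOn rfl rfl subset_rfl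

lemma exists_curve {S : Set ℂ} {p q : ℂ} (h : JoinedIn S p q) :
    ∃ m : ℝ → ℂ, Curve m ∧ m 0 = p ∧ m 1 = q ∧ ∀ t, m t ∈ S := by
  refine ⟨h.somePath.extend, ⟨h.somePath.continuous_extend, ?_⟩, by simp, by simp, ?_⟩
  · intro t
    rcases le_total t 0 with h0 | h0
    · rw [cl_of_nonpos h0, Path.extend_of_le_zero _ h0, Path.extend_zero]
    · rcases le_total 1 t with h1 | h1
      · rw [cl_of_one_le h1, Path.extend_of_one_le _ h1, Path.extend_one]
      · rw [cl_of_mem ⟨h0, h1⟩]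
  · intro t
    have : h.somePath.extend t ∈ Set.range h.somePath.extend := ⟨t, rfl⟩
    rw [Path.extend_range] at this
    obtain ⟨s, hs⟩ := this
    rw [← hs]
    exact h.somePath_mem s

/-- union of the images of some edges -/
def Img (D : Drawing G) (L : List (V × V)) : Set ℂ := {z | ∃ e ∈ L, z ∈ img D s(e.1, e.2)}

lemma Img_mono (D : Drawing G) {L L' : List (V × V)} (h : L ⊆ L') : Img D L ⊆ Img D L' := by
  rintro z ⟨e, he, hz⟩
  exact ⟨e, h he, hz⟩

/-- no common ends -/
def ind [DecidableEq V] (L L' : List (V × V)) : Bool :=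
  L.all fun p => L'.all fun q => decide (p.1 ≠ q.1 ∧ p.1 ≠ q.2 ∧ p.2 ≠ q.1 ∧ p.2 ≠ q.2)

/-- curves within pairwise independent edges are apart -/
lemma apart [DecidableEq V] (D : Drawing G) (hD : D.Planar) {L L' : List (V × V)} {c d : ℝ → ℂ}
    (hc : ∀ t ∈ Icc (0 : ℝ) 1, c t ∈ Img D L) (hd : ∀ t ∈ Icc (0 : ℝ) 1, d t ∈ Img D L')
    (hL : ∀ e ∈ L, G.Adj e.1 e.2) (hL' : ∀ e ∈ L', G.Adj e.1 e.2)
    (h : ind L L' = true) : Apart c d := by
  intro s hs t ht he
  obtain ⟨e, he1, he2⟩ := hc s hs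
  obtain ⟨f, hf1, hf2⟩ := hd t ht
  rw [he] at he2
  unfold ind at h
  rw [List.all_eq_true] at h
  have h' := h e he1
  rw [List.all_eq_true] at h'
  have h'' := of_decide_eq_true (h' f hf1)
  have hne : s(e.1, e.2) ≠ s(f.1, f.2) := by
    intro heq
    rw [Sym2.eq_iff] at heq
    rcases heq with ⟨h1, -⟩ | ⟨h1, -⟩
    · exact h''.1 h1
    · exact h''.2.1 h1
  obtain ⟨v, hv1, hv2, -⟩ := inter D hD (hL e he1) (hL' f hf1) hne he2 hf2
  rw [Sym2.mem_iff] at hv1 hv2
  rcases hv1 with h1 | h1 <;> rcases hv2 with h2 | h2 <;> rw [h1] at h2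
  · exact h''.1 h2
  · exact h''.2.1 h2
  · exact h''.2.2.1 h2
  · exact h''.2.2.2 h2

/-- curves of two adjacent edges meet only at their common end. -/
lemma meet (D : Drawing G) (hD : D.Planar) {x u v : V} (hu : G.Adj x u) (hv : G.Adj x v)
    (huv : u ≠ v) {c d : ℝ → ℂ}
    (hc0 : c 0 = D.pos x) (hci : ∀ s ∈ Icc (0 : ℝ) 1, ∀ t ∈ Icc (0 : ℝ) 1, c s = c t → s = t)
    (hcm : c '' Icc 0 1 = img D s(x, u))
    (hd0 : d 0 = D.pos x) (hdi : ∀ s ∈ Icc (0 : ℝ) 1, ∀ t ∈ Icc (0 : ℝ) 1, d s = d t → s = t)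
    (hdm : d '' Icc 0 1 = img D s(x, v)) : Meet (D.pos x) c d := by
  refine ⟨hc0, hd0, ?_⟩
  intro s hs t ht he
  have h1 : c s ∈ img D s(x, u) := hcm ▸ ⟨s, hs, rfl⟩
  have h2 : c s ∈ img D s(x, v) := by rw [he]; exact hdm ▸ ⟨t, ht, rfl⟩
  have hne : s(x, u) ≠ s(x, v) := by
    intro h
    rw [Sym2.congr_right] at h
    exact huv h
  obtain ⟨w, hw1, hw2, hw3⟩ := inter D hD hu hv hne h1 h2
  have hwx : w = x := by
    rw [Sym2.mem_iff] at hw1 hw2
    rcases hw1 with h | h
    · exact h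
    · rcases hw2 with h' | h'
      · exact h'
      · exact absurd (h.symm.trans h') huv
  subst hwx
  constructor
  · apply hci s hs 0 (by norm_num); rw [hw3, hc0]
  · apply hdi t ht 0 (by norm_num); rw [← he, hw3, hd0]

/-! ### The two graphs -/

/-- The hub of class `i mod 3`. -/
def hub (i : Fin 9) : Fin 21 := ⟨i.val % 3, by omega⟩
/-- The leaf of strand `i` at hub `i`. -/
def T (i : Fin 9) : Fin 21 := ⟨3 + 2 * i.val, by omega⟩
/-- The leaf of strand `i` at hub `i + 1`. -/
def H (i : Fin 9) : Fin 21 := ⟨4 + 2 * i.val, by omega⟩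

/-- shared edges (hub-leaf) -/
def shared (a b : Fin 21) : Bool :=
  (List.finRange 9).any fun i => (a == hub i && b == T i) || (a == hub (i + 1) && b == H i)
/-- exclusive edges of the first graph -/
def excl1 (a b : Fin 21) : Bool := (List.finRange 9).any fun i => a == T i && b == H i
/-- exclusive edges of the second graph -/
def excl2 (a b : Fin 21) : Bool := (List.finRange 9).any fun i => a == H i && b == T (i + 1)

/-- The first graph: three hubs, every two joined by three paths of length three. -/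
def G1 : SimpleGraph (Fin 21) where
  Adj a b := (shared a b || shared b a || excl1 a b || excl1 b a) = true
  symm := ⟨by decide +kernel⟩
  loopless := ⟨by decide +kernel⟩

/-- The second graph: at every hub three triangles. -/
def G2 : SimpleGraph (Fin 21) where
  Adj a b := (shared a b || shared b a || excl2 a b || excl2 b a) = true
  symm := ⟨by decide +kernel⟩
  loopless := ⟨by decide +kernel⟩

instance : DecidableRel G1.Adj := fun a b => inferInstanceAs (Decidable (_ = true))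
instance : DecidableRel G2.Adj := fun a b => inferInstanceAs (Decidable (_ = true))

end Pool.Agent.H235R2.NoSefe
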