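import Pool.Agent.H235R2.NoSefe

set_option autoImplicit false

namespace Pool.Agent.H235R2.NoSefe

open Set Topology Pool.Agent.H235R2.Sefe Pool.Agent.H235R2.Turn

/-- `k` is a strand entering the hub `i`. -/
def Q (i k : Fin 9) : Prop := k = i + 2 ∨ k = i + 5 ∨ k = i + 8

instance : DecidableRel Q := fun i k => inferInstanceAs (Decidable (_ ∨ _ ∨ _))

lemma adj_T : ∀ i, G1.Adj (hub i) (T i) := by decide +kernel
lemma adj_H : ∀ i, G1.Adj (hub (i + 1)) (H i) := by decide +kernel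
lemma adj_TH : ∀ i, G1.Adj (T i) (H i) := by decide +kernel
lemma adj2_T : ∀ i, G2.Adj (hub i) (T i) := by decide +kernel
lemma adj2_H : ∀ i, G2.Adj (hub (i + 1)) (H i) := by decide +kernel
lemma adj2_HT : ∀ i, G2.Adj (H i) (T (i + 1)) := by decide +kernel
lemma hub3 : ∀ i, hub (i + 3) = hub i := by decide +kernel
lemma hubQ : ∀ i k, Q i k → hub (k + 1) = hub i := by decide +kernel
lemma hubQ' : ∀ i k, Q i k → hub k = hub (i + 1 + 1) := by decide +kernel
lemma ne_TT : ∀ i, T i ≠ T (i + 3) := by decide +kernel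
lemma ne_HH : ∀ i, H i ≠ H (i + 3) := by decide +kernel
lemma ne_TH : ∀ i k, T i ≠ H k := by decide +kernel
lemma ne_T3 : ∀ i, T (i + 3) ≠ T (i + 6) := by decide +kernel

/-- edges of the three initial arcs -/
def LA (i k : Fin 9) : Fin 3 → List (Fin 21 × Fin 21) :=
  ![[(hub i, T i)], [(hub i, T (i + 3))], [(hub i, H k)]]
/-- edges of the three final arcs -/
def LB (i : Fin 9) : Fin 3 → List (Fin 21 × Fin 21) :=
  ![[(hub (i + 1), H i)], [(hub (i + 1), H (i + 3))], [(hub (i + 1), T (i + 1))]]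
/-- edges of the three middle curves -/
def LM (i k : Fin 9) : Fin 3 → List (Fin 21 × Fin 21) :=
  ![[(T i, H i)], [(T (i + 3), H (i + 3))],
    [(H k, T k), (T k, hub (i + 1 + 1)), (hub (i + 1 + 1), H (i + 1)), (H (i + 1), T (i + 1))]]

lemma adj_LA : ∀ i k, Q i k → ∀ a, ∀ e ∈ LA i k a, G1.Adj e.1 e.2 := by decide +kernel
lemma adj_LB : ∀ i a, ∀ e ∈ LB i a, G1.Adj e.1 e.2 := by decide +kernel
lemma adj_LM : ∀ i k, Q i k → ∀ a, ∀ e ∈ LM i k a, G1.Adj e.1 e.2 := by decide +kernel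
lemma ind_AB : ∀ i k, Q i k → ∀ a b, a ≠ b → ind (LA i k a) (LB i b) = true := by decide +kernel
lemma ind_AM : ∀ i k, Q i k → ∀ a b, a ≠ b → ind (LA i k a) (LM i k b) = true := by decide +kernel
lemma ind_BM : ∀ i k, Q i k → ∀ a b, a ≠ b → ind (LB i a) (LM i k b) = true := by decide +kernel
lemma ind_MM : ∀ i k, Q i k → ∀ a b, a ≠ b → ind (LM i k a) (LM i k b) = true := by
  decide +kernel

lemma adj2_M : ∀ i, ∀ e ∈ [(H i, T (i + 1))], G2.Adj e.1 e.2 := by decide +kernel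
lemma ind_loop1 : ∀ i, ind [(hub (i + 1), H i)] [(H (i + 3), T (i + 3 + 1))] = true := by
  decide +kernel
lemma ind_loop2 : ∀ i, ind [(hub (i + 1), T (i + 1))] [(H (i + 3), T (i + 3 + 1))] = true := by
  decide +kernel
lemma ind_loop3 : ∀ i, ind [(H i, T (i + 1))] [(hub (i + 1), H (i + 3))] = true := by
  decide +kernel
lemma ind_loop4 : ∀ i, ind [(H i, T (i + 1))] [(hub (i + 1), T (i + 3 + 1))] = true := by
  decide +kernel
lemma ind_loop5 : ∀ i, ind [(H i, T (i + 1))] [(H (i + 3), T (i + 3 + 1))] = true := by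
  decide +kernel

theorem no_sefe : ¬ AdmitsSEFE G1 G2 := by
  rintro ⟨Γ₁, Γ₂, P₁, P₂, hpos, harc⟩
  choose uT hT using fun i => exists_par Γ₁ (adj_T i)
  choose uH hH using fun i => exists_par Γ₁ (adj_H i)
  -- meets
  have mTT : ∀ i j, hub i = hub j → T i ≠ T j → Meet (Γ₁.pos (hub i)) (uT i) (uT j) := by
    intro i j hij hne
    have hj := hT j
    rw [← hij] at hj
    have haj := adj_T j
    rw [← hij] at haj
    exact meet Γ₁ P₁ (adj_T i) haj hne (hT i).zero (hT i).inj (hT i).image hj.zero hj.inj hj.image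
  have mTH : ∀ i k, hub (k + 1) = hub i → Meet (Γ₁.pos (hub i)) (uT i) (uH k) := by
    intro i k hik
    have hk := hH k
    rw [hik] at hk
    have hak := adj_H k
    rw [hik] at hak
    exact meet Γ₁ P₁ (adj_T i) hak (ne_TH i k) (hT i).zero (hT i).inj (hT i).image
      hk.zero hk.inj hk.image
  have mHH : ∀ i j, hub (i + 1) = hub (j + 1) → H i ≠ H j →
      Meet (Γ₁.pos (hub (i + 1))) (uH i) (uH j) := by
    intro i j hij hne
    have hj := hH j
    rw [← hij] at hj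
    have haj := adj_H j
    rw [← hij] at haj
    exact meet Γ₁ P₁ (adj_H i) haj hne (hH i).zero (hH i).inj (hH i).image hj.zero hj.inj hj.image
  -- theta relation
  have thetaR : ∀ i k, Q i k → Rot (uT i) (uT (i + 3)) (uH k) =
      - Rot (uH i) (uH (i + 3)) (uT (i + 1)) := by
    intro i k hQ
    have j0 : JoinedIn (Img Γ₁ (LM i k 0)) (Γ₁.pos (T i)) (Γ₁.pos (H i)) :=
      (joined_edge Γ₁ (adj_TH i)).mono fun z hz => ⟨_, List.mem_singleton.mpr rfl, hz⟩
    have j1 : JoinedIn (Img Γ₁ (LM i k 1)) (Γ₁.pos (T (i + 3))) (Γ₁.pos (H (i + 3))) :=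
      (joined_edge Γ₁ (adj_TH (i + 3))).mono fun z hz => ⟨_, List.mem_singleton.mpr rfl, hz⟩
    have hLM := adj_LM i k hQ 2
    have hmono : ∀ e ∈ LM i k 2, JoinedIn (Img Γ₁ (LM i k 2)) (Γ₁.pos e.1) (Γ₁.pos e.2) :=
      fun e he => (joined_edge Γ₁ (hLM e he)).mono fun z hz => ⟨e, he, hz⟩
    have j2 : JoinedIn (Img Γ₁ (LM i k 2)) (Γ₁.pos (H k)) (Γ₁.pos (T (i + 1))) := by
      have a1 := hmono (H k, T k) (by simp [LM])
      have a2 := hmono (T k, hub (i + 1 + 1)) (by simp [LM])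
      have a3 := hmono (hub (i + 1 + 1), H (i + 1)) (by simp [LM])
      have a4 := hmono (H (i + 1), T (i + 1)) (by simp [LM])
      exact ((a1.trans a2).trans a3).trans a4
    obtain ⟨m0, cm0, m00, m01, mm0⟩ := exists_curve j0
    obtain ⟨m1, cm1, m10, m11, mm1⟩ := exists_curve j1
    obtain ⟨m2, cm2, m20, m21, mm2⟩ := exists_curve j2
    have hk := hH k
    rw [hubQ i k hQ] at hk
    have hT3 := hT (i + 3)
    rw [hub3] at hT3
    have hH3 := hH (i + 3)
    rw [add_right_comm i 3 1, hub3] at hH3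
    have imA : ∀ a, ∀ t ∈ Icc (0 : ℝ) 1, (![uT i, uT (i + 3), uH k] : Fin 3 → ℝ → ℂ) a t ∈
        Img Γ₁ (LA i k a) := by
      intro a t ht
      fin_cases a
      · exact ⟨_, List.mem_singleton.mpr rfl, (hT i).image ▸ mem_image_of_mem _ ht⟩
      · exact ⟨_, List.mem_singleton.mpr rfl, hT3.image ▸ mem_image_of_mem _ ht⟩
      · exact ⟨_, List.mem_singleton.mpr rfl, hk.image ▸ mem_image_of_mem _ ht⟩
    have imB : ∀ a, ∀ t ∈ Icc (0 : ℝ) 1,
        (![uH i, uH (i + 3), uT (i + 1)] : Fin 3 → ℝ → ℂ) a t ∈ Img Γ₁ (LB i a) := by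
      intro a t ht
      fin_cases a
      · exact ⟨_, List.mem_singleton.mpr rfl, (hH i).image ▸ mem_image_of_mem _ ht⟩
      · exact ⟨_, List.mem_singleton.mpr rfl, hH3.image ▸ mem_image_of_mem _ ht⟩
      · exact ⟨_, List.mem_singleton.mpr rfl, (hT (i + 1)).image ▸ mem_image_of_mem _ ht⟩
    have imM : ∀ a, ∀ t ∈ Icc (0 : ℝ) 1, (![m0, m1, m2] : Fin 3 → ℝ → ℂ) a t ∈
        Img Γ₁ (LM i k a) := by
      intro a t ht
      fin_cases a
      · exact mm0 t
      · exact mm1 t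
      · exact mm2 t
    have M12 := mTT i (i + 3) (hub3 i).symm (ne_TT i)
    have M13 := mTH i k (hubQ i k hQ)
    have M23 := mTH (i + 3) k ((hubQ i k hQ).trans (hub3 i).symm)
    rw [hub3] at M23
    have N12 := mHH i (i + 3) (by rw [add_right_comm i 3 1, hub3]) (ne_HH i)
    have N31 := mTH (i + 1) i rfl
    have N32 := mTH (i + 1) (i + 3) (by rw [add_right_comm i 3 1, hub3])
    have := theta (x := Γ₁.pos (hub i)) (y := Γ₁.pos (hub (i + 1)))
      (a := ![uT i, uT (i + 3), uH k]) (m := ![m0, m1, m2]) (b := ![uH i, uH (i + 3), uT (i + 1)])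
      (by intro a; fin_cases a <;> [exact (hT i).curve; exact hT3.curve; exact hk.curve])
      (by intro a; fin_cases a <;> [exact cm0; exact cm1; exact cm2])
      (by intro a; fin_cases a <;>
            [exact (hH i).curve; exact hH3.curve; exact (hT (i + 1)).curve])
      (by intro a; fin_cases a <;> [exact (hT i).one.trans m00.symm; exact hT3.one.trans m10.symm;
            exact hk.one.trans m20.symm])
      (by intro a; fin_cases a <;> [exact m01.trans (hH i).one.symm;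
            exact m11.trans hH3.one.symm; exact m21.trans (hT (i + 1)).one.symm])
      (by
        intro a b hab
        fin_cases a <;> fin_cases b <;>
        (first
          | exact absurd rfl hab
          | exact M12
          | exact M12.symm
          | exact M13
          | exact M13.symm
          | exact M23
          | exact M23.symm))
      (by
        intro a b hab
        fin_cases a <;> fin_cases b <;>
        (first
          | exact absurd rfl hab
          | exact N12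
          | exact N12.symm
          | exact N31
          | exact N31.symm
          | exact N32
          | exact N32.symm))
      (fun a b hab => apart Γ₁ P₁ (imA a) (imB b) (adj_LA i k hQ a) (adj_LB i b)
        (ind_AB i k hQ a b hab))
      (fun a b hab => apart Γ₁ P₁ (imA a) (imM b) (adj_LA i k hQ a) (adj_LM i k hQ b)
        (ind_AM i k hQ a b hab))
      (fun a b hab => apart Γ₁ P₁ (imB a) (imM b) (adj_LB i a) (adj_LM i k hQ b)
        (ind_BM i k hQ a b hab))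
      (fun a b hab => apart Γ₁ P₁ (imM a) (imM b) (adj_LM i k hQ a) (adj_LM i k hQ b)
        (ind_MM i k hQ a b hab))
    exact this
  -- loop relation
  have loopR : ∀ i, Rot (uH i) (uT (i + 1)) (uH (i + 3)) =
      Rot (uH i) (uT (i + 1)) (uT (i + 3 + 1)) := by
    intro i
    have hH3 := hH (i + 3)
    rw [add_right_comm i 3 1, hub3] at hH3
    have hT4 := hT (i + 3 + 1)
    rw [show hub (i + 3 + 1) = hub (i + 1) by rw [add_right_comm i 3 1, hub3]] at hT4
    have im1 : img Γ₁ s(hub (i + 1), H i) = img Γ₂ s(hub (i + 1), H i) :=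
      harc _ ⟨adj_H i, adj2_H i⟩
    have im2 : img Γ₁ s(hub (i + 1), T (i + 1)) = img Γ₂ s(hub (i + 1), T (i + 1)) :=
      harc _ ⟨adj_T (i + 1), adj2_T (i + 1)⟩
    have e3 : hub (i + 1) = hub (i + 3 + 1) := by rw [add_right_comm i 3 1, hub3]
    have a3 := adj_H (i + 3)
    have a3' := adj2_H (i + 3)
    have a4 := adj_T (i + 3 + 1)
    have a4' := adj2_T (i + 3 + 1)
    rw [← e3] at a3 a3' a4 a4'
    have im3 : img Γ₁ s(hub (i + 1), H (i + 3)) = img Γ₂ s(hub (i + 1), H (i + 3)) :=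
      harc _ ⟨a3, a3'⟩
    have im4 : img Γ₁ s(hub (i + 1), T (i + 3 + 1)) = img Γ₂ s(hub (i + 1), T (i + 3 + 1)) :=
      harc _ ⟨a4, a4'⟩
    obtain ⟨m, cm, m0, m1, mm⟩ := exists_curve (joined_edge Γ₂ (adj2_HT i))
    obtain ⟨m', cm', m0', m1', mm'⟩ := exists_curve (joined_edge Γ₂ (adj2_HT (i + 3)))
    rw [← hpos] at m0 m1 m0' m1'
    have M1 : ∀ t ∈ Icc (0 : ℝ) 1, m t ∈ Img Γ₂ [(H i, T (i + 1))] := fun t _ =>
      ⟨_, List.mem_singleton.mpr rfl, mm t⟩
    have M2 : ∀ t ∈ Icc (0 : ℝ) 1, m' t ∈ Img Γ₂ [(H (i + 3), T (i + 3 + 1))] := fun t _ =>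
      ⟨_, List.mem_singleton.mpr rfl, mm' t⟩
    have A1 : ∀ t ∈ Icc (0 : ℝ) 1, uH i t ∈ Img Γ₂ [(hub (i + 1), H i)] := fun t ht =>
      ⟨_, List.mem_singleton.mpr rfl, by rw [← im1, ← (hH i).image]; exact mem_image_of_mem _ ht⟩
    have A2 : ∀ t ∈ Icc (0 : ℝ) 1, uT (i + 1) t ∈ Img Γ₂ [(hub (i + 1), T (i + 1))] := fun t ht =>
      ⟨_, List.mem_singleton.mpr rfl, by
        rw [← im2, ← (hT (i + 1)).image]; exact mem_image_of_mem _ ht⟩
    have A3 : ∀ t ∈ Icc (0 : ℝ) 1, uH (i + 3) t ∈ Img Γ₂ [(hub (i + 1), H (i + 3))] := fun t ht =>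
      ⟨_, List.mem_singleton.mpr rfl, by rw [← im3, ← hH3.image]; exact mem_image_of_mem _ ht⟩
    have A4 : ∀ t ∈ Icc (0 : ℝ) 1, uT (i + 3 + 1) t ∈ Img Γ₂ [(hub (i + 1), T (i + 3 + 1))] :=
      fun t ht =>
      ⟨_, List.mem_singleton.mpr rfl, by rw [← im4, ← hT4.image]; exact mem_image_of_mem _ ht⟩
    have E1 : ∀ e ∈ [(hub (i + 1), H i)], G2.Adj e.1 e.2 := by
      intro e he; rw [List.mem_singleton.mp he]; exact adj2_H i
    have E2 : ∀ e ∈ [(hub (i + 1), T (i + 1))], G2.Adj e.1 e.2 := by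
      intro e he; rw [List.mem_singleton.mp he]; exact adj2_T (i + 1)
    have E3 : ∀ e ∈ [(hub (i + 1), H (i + 3))], G2.Adj e.1 e.2 := by
      intro e he; rw [List.mem_singleton.mp he]; exact a3'
    have E4 : ∀ e ∈ [(hub (i + 1), T (i + 3 + 1))], G2.Adj e.1 e.2 := by
      intro e he; rw [List.mem_singleton.mp he]; exact a4'
    have E5 := adj2_M i
    have E6 := adj2_M (i + 3)
    have N4 := mTT (i + 1) (i + 3 + 1) e3 (by rw [add_right_comm i 3 1]; exact ne_TT (i + 1))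
    have N14 := mTH (i + 3 + 1) i e3
    rw [← e3] at N14
    exact loop (x := Γ₁.pos (hub (i + 1))) (hH i).curve cm (hT (i + 1)).curve hH3.curve cm'
      hT4.curve ((hH i).one.trans m0.symm) (m1.trans (hT (i + 1)).one.symm)
      (hH3.one.trans m0'.symm) (m1'.trans hT4.one.symm)
      (mHH i (i + 3) (by rw [add_right_comm i 3 1, hub3]) (ne_HH i)) N14.symm
      (mTH (i + 1) (i + 3) (by rw [add_right_comm i 3 1, hub3])) N4
      (apart Γ₂ P₂ A1 M2 E1 E6 (ind_loop1 i)) (apart Γ₂ P₂ A2 M2 E2 E6 (ind_loop2 i))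
      (apart Γ₂ P₂ M1 A3 E5 E3 (ind_loop3 i)) (apart Γ₂ P₂ M1 A4 E5 E4 (ind_loop4 i))
      (apart Γ₂ P₂ M1 M2 E5 E6 (ind_loop5 i))
  -- shift relation
  have shift : ∀ i k, Q i k → Rot (uT i) (uT (i + 3)) (uH k) =
      Rot (uT (i + 1)) (uT (i + 1 + 3)) (uH i) := by
    intro i k hQ
    have e3 : hub (i + 1) = hub (i + 3 + 1) := by rw [add_right_comm i 3 1, hub3]
    have h1 := thetaR i k hQ
    have h2 := loopR i
    have N12 := mHH i (i + 3) (by rw [add_right_comm i 3 1, hub3]) (ne_HH i)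
    have N31 := mTH (i + 1) i rfl
    have N32 := mTH (i + 1) (i + 3) (by rw [add_right_comm i 3 1, hub3])
    have s1 := Th_symm (hH i).curve (hH (i + 3)).curve N12
    have s2 := Th_symm (hT (i + 1)).curve (hH i).curve N31
    have s3 := Th_symm (hT (i + 1)).curve (hH (i + 3)).curve N32
    rw [add_right_comm i 1 3]
    unfold Rot at h1 h2 ⊢
    linear_combination h1 + h2 - s1 - s2 - s3
  have r1 : Rot (uT 0) (uT 3) (uH 2) = Rot (uT 1) (uT 4) (uH 0) := shift 0 2 (by decide)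
  have r2 : Rot (uT 1) (uT 4) (uH 0) = Rot (uT 2) (uT 5) (uH 1) := shift 1 0 (by decide)
  have r3 : Rot (uT 2) (uT 5) (uH 1) = Rot (uT 3) (uT 6) (uH 2) := shift 2 1 (by decide)
  have r4 : Rot (uT 3) (uT 6) (uH 2) = Rot (uT 4) (uT 7) (uH 3) := shift 3 2 (by decide)
  have r5 : Rot (uT 4) (uT 7) (uH 3) = Rot (uT 5) (uT 8) (uH 4) := shift 4 3 (by decide)
  have r6 : Rot (uT 5) (uT 8) (uH 4) = Rot (uT 6) (uT 0) (uH 5) := shift 5 4 (by decide)
  have r7 : Rot (uT 6) (uT 0) (uH 5) = Rot (uT 7) (uT 1) (uH 6) := shift 6 5 (by decide)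
  have r8 : Rot (uT 6) (uT 0) (uH 2) = Rot (uT 7) (uT 1) (uH 6) := shift 6 2 (by decide)
  have m03 : Meet (Γ₁.pos (hub 0)) (uT 0) (uT 3) := mTT 0 3 (by decide) (by decide)
  have m36 : Meet (Γ₁.pos (hub 0)) (uT 3) (uT 6) := mTT 3 6 (by decide) (by decide)
  have m60 : Meet (Γ₁.pos (hub 0)) (uT 6) (uT 0) := mTT 6 0 (by decide) (by decide)
  have m02 : Meet (Γ₁.pos (hub 0)) (uT 0) (uH 2) := mTH 0 2 (by decide)
  have m32 : Meet (Γ₁.pos (hub 0)) (uT 3) (uH 2) := mTH 3 2 (by decide)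
  have m62 : Meet (Γ₁.pos (hub 0)) (uT 6) (uH 2) := mTH 6 2 (by decide)
  have s0 := Th_symm (hT 0).curve (hH 2).curve m02
  have s3 := Th_symm (hT 3).curve (hH 2).curve m32
  have s6 := Th_symm (hT 6).curve (hH 2).curve m62
  have hsum : Rot (uT 0) (uT 3) (uH 2) + Rot (uT 3) (uT 6) (uH 2) + Rot (uT 6) (uT 0) (uH 2) =
      Rot (uT 0) (uT 3) (uT 6) := by
    unfold Rot
    linear_combination s0 + s3 + s6
  have e1 := Rot_eq (hT 0).curve (hT 3).curve (hH 2).curve m03 m32 m02.symm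
  have e2 := Rot_eq (hT 0).curve (hT 3).curve (hT 6).curve m03 m36 m60
  have h36 : Rot (uT 3) (uT 6) (uH 2) = Rot (uT 0) (uT 3) (uH 2) := by rw [r1, r2, r3]
  have h60 : Rot (uT 6) (uT 0) (uH 2) = Rot (uT 0) (uT 3) (uH 2) := by
    rw [r8, ← r7, ← r6, ← r5, ← r4, h36]
  rw [h36, h60] at hsum
  have hpi : (Real.pi * Complex.I : ℂ) ≠ 0 := by simp [Real.pi_ne_zero]
  have fin : ∀ z : ℂ, z = 0 → (2 : ℂ) * (Real.pi * Complex.I) ≠ z := by
    intro z hz h
    rw [hz] at h
    rcases mul_eq_zero.mp h with h | h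
    · norm_num at h
    · exact hpi h
  rcases e1 with e1 | e1 <;> rcases e2 with e2 | e2 <;> rw [e1, e2] at hsum
  · exact fin _ rfl (by linear_combination hsum)
  · exact fin _ rfl (by linear_combination (1/2) * hsum)
  · exact fin _ rfl (by linear_combination -(1/2) * hsum)
  · exact fin _ rfl (by linear_combination -hsum)

end Pool.Agent.H235R2.NoSefe
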