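import Mathlib
import Pool.Agent.H922R2.OPC.Stubs

/-! KSP: the kernel of the specialisation. -/

set_option autoImplicit false

namespace Pool.Agent.H235R2.OPC

open MvPolynomial Pool.Agent.H922R2.OPC

section general

variable {k : Type} [Field k]

lemma algMap_eq (a : k) : algebraMap k (L k) a = HahnSeries.single 0 (Polynomial.C a) := by
  rw [HahnSeries.algebraMap_apply', PowerSeries.algebraMap_apply, HahnSeries.ofPowerSeries_C]
  rfl

lemma rot_alg (c : k) (a : k) : rot c (algebraMap k (L k) a) = algebraMap k (L k) a := by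
  rw [algMap_eq]
  refine HahnSeries.ext (funext fun i => ?_)
  show Polynomial.C (c ^ i) * (HahnSeries.single (0 : ℤ) (Polynomial.C a)).coeff i = _
  by_cases hi : i = 0
  · subst hi
    simp
  · rw [HahnSeries.coeff_single_of_ne hi, mul_zero]

lemma rot_tp (c : k) (n : ℕ) (hc : c ^ n = 1) : rot c (tp (-(n : ℤ))) = tp (-(n : ℤ)) := by
  unfold tp
  refine HahnSeries.ext (funext fun i => ?_)
  show Polynomial.C (c ^ i) * (HahnSeries.single (-(n : ℤ)) (1 : Polynomial k)).coeff i = _
  by_cases hi : i = -(n : ℤ)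
  · subst hi
    rw [HahnSeries.coeff_single_same, zpow_neg, zpow_natCast, hc]
    simp
  · rw [HahnSeries.coeff_single_of_ne hi, mul_zero]

lemma sp_coeff (μ : k) (h : L k) (i : ℤ) : (sp μ h).coeff i = (h.coeff i).eval μ := rfl

lemma sp_rot (μ c : k) (h : L k) (h0 : sp μ h = 0) : sp μ (rot c h) = 0 := by
  refine HahnSeries.ext (funext fun i => ?_)
  rw [sp_coeff]
  show (Polynomial.C (c ^ i) * h.coeff i).eval μ = 0
  have : (sp μ h).coeff i = 0 := by rw [h0]; rfl
  rw [sp_coeff] at this
  rw [Polynomial.eval_mul, this, mul_zero]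

lemma ev_X0 (n : ℕ) (φ : L k) : ev n φ (X 0) = tp (-(n : ℤ)) := by
  unfold ev
  rw [aeval_X]
  rfl

lemma ev_X1 (n : ℕ) (φ : L k) : ev n φ (X 1) = φ := by
  unfold ev
  rw [aeval_X]
  rfl

lemma evY_X0 (n : ℕ) : evY (k := k) n (X 0) = Polynomial.C (tp (-(n : ℤ))) := by
  unfold evY
  rw [aeval_X]
  rfl

lemma evY_X1 (n : ℕ) : evY (k := k) n (X 1) = Polynomial.X := by
  unfold evY
  rw [aeval_X]
  rfl

lemma fin2 (i : Fin 2) : i = 0 ∨ i = 1 := by
  revert i
  decide

/-- evaluation of `evY` -/
lemma eval_evY (n : ℕ) (s : L k) (g : B k) : (evY n g).eval s = ev n s g := by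
  induction g using MvPolynomial.induction_on with
  | C a =>
    have h1 : evY n (C a) = Polynomial.C (algebraMap k (L k) a) := (evY n).commutes a
    have h2 : ev n s (C a) = algebraMap k (L k) a := (ev n s).commutes a
    rw [h1, h2, Polynomial.eval_C]
  | add p q hp hq => rw [map_add, map_add, Polynomial.eval_add, hp, hq]
  | mul_X p i hp =>
    rw [map_mul, map_mul, Polynomial.eval_mul, hp]
    rcases fin2 i with rfl | rfl
    · rw [evY_X0, ev_X0, Polynomial.eval_C]
    · rw [evY_X1, ev_X1, Polynomial.eval_X]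

/-- derivative of `evY` -/
lemma deriv_evY (n : ℕ) (g : B k) :
    Polynomial.derivative (evY n g) = evY n (pderiv 1 g) := by
  induction g using MvPolynomial.induction_on with
  | C a =>
    have h1 : evY n (C a) = Polynomial.C (algebraMap k (L k) a) := (evY n).commutes a
    rw [h1, Polynomial.derivative_C, pderiv_C, map_zero]
  | add p q hp hq => rw [map_add, map_add, map_add, map_add, hp, hq]
  | mul_X p i hp =>
    rw [map_mul, Polynomial.derivative_mul, hp, pderiv_mul, map_add, map_mul, map_mul]
    rcases fin2 i with rfl | rfl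
    · rw [evY_X0, Polynomial.derivative_C, pderiv_X_of_ne (by decide), map_zero]
    · rw [evY_X1, Polynomial.derivative_X, pderiv_X_self, map_one]

/-- rotation of `ev` -/
lemma rot_ev (R : L k →+* L k) (c : k) (hR : ∀ h, R h = rot c h) (n : ℕ) (hc : c ^ n = 1)
    (φ : L k) (g : B k) : rot c (ev n φ g) = ev n (rot c φ) g := by
  rw [← hR]
  induction g using MvPolynomial.induction_on with
  | C a =>
    have h1 : ev n φ (C a) = algebraMap k (L k) a := (ev n φ).commutes a
    have h2 : ev n (rot c φ) (C a) = algebraMap k (L k) a := (ev n (rot c φ)).commutes a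
    rw [h1, h2, hR, rot_alg]
  | add p q hp hq => rw [map_add, map_add, map_add, hp, hq]
  | mul_X p i hp =>
    rw [map_mul, map_mul, map_mul, hp]
    rcases fin2 i with rfl | rfl
    · rw [ev_X0, ev_X0, hR, rot_tp c n hc]
    · rw [ev_X1, ev_X1, hR]

/-- derivative of a product of linear factors at a root -/
lemma deriv_prod (n : ℕ) (s : ℕ → L k) (i : ℕ) (hi : i < n) :
    (Polynomial.derivative
      (∏ j ∈ Finset.range n, (Polynomial.X - Polynomial.C (s j)))).eval (s i) =
      ∏ j ∈ (Finset.range n).erase i, (s i - s j) := by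
  rw [← Finset.mul_prod_erase _ _ (Finset.mem_range.mpr hi), Polynomial.derivative_mul,
    Polynomial.eval_add, Polynomial.eval_mul, Polynomial.eval_mul, Polynomial.derivative_sub,
    Polynomial.derivative_X, Polynomial.derivative_C, sub_zero, Polynomial.eval_one, one_mul,
    Polynomial.eval_sub, Polynomial.eval_X, Polynomial.eval_C, sub_self, zero_mul, add_zero,
    Polynomial.eval_prod]
  refine Finset.prod_congr rfl fun j _ => ?_
  rw [Polynomial.eval_sub, Polynomial.eval_X, Polynomial.eval_C]

/-- coefficients of `c (t^(-n))` -/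
lemma coeff_aeval (n : ℕ) (hn : 0 < n) (c : Polynomial k) (m : ℕ) :
    (Polynomial.aeval (tp (-(n : ℤ)) : L k) c).coeff (-((n * m : ℕ) : ℤ)) =
      Polynomial.C (c.coeff m) := by
  induction c using Polynomial.induction_on' with
  | add p q hp hq =>
    rw [map_add, HahnSeries.coeff_add, hp, hq, Polynomial.coeff_add, map_add]
  | monomial d a =>
    rw [Polynomial.aeval_monomial, algMap_eq]
    have h1 : (tp (-(n : ℤ)) : L k) ^ d = HahnSeries.single (-((n * d : ℕ) : ℤ)) 1 := by
      unfold tp
      rw [HahnSeries.single_pow, one_pow]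
      congr 1
      rw [nsmul_eq_mul]
      push_cast
      ring_nf
    rw [h1, HahnSeries.single_mul_single, zero_add, mul_one, Polynomial.coeff_monomial]
    by_cases hdm : d = m
    · subst hdm
      rw [HahnSeries.coeff_single_same, if_pos rfl]
    · rw [if_neg hdm, HahnSeries.coeff_single_of_ne, map_zero]
      intro h
      apply hdm
      have h2 : n * m = n * d := by exact_mod_cast neg_injective h
      exact (Nat.eq_of_mul_eq_mul_left hn h2).symm

/-- division by a monic polynomial -/
lemma division (n : ℕ) (hn : 0 < n) (f : B k) (a : ℕ → Polynomial k)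
    (hf : f = X 1 ^ n + ∑ j ∈ Finset.range n, Polynomial.aeval (X 0) (a j) * X 1 ^ j) (μ : k)
    (h : B k) : ∃ (q : B k) (c : ℕ → Polynomial k),
      h = (f - C μ) * q + ∑ j ∈ Finset.range n, Polynomial.aeval (X 0 : B k) (c j) * X 1 ^ j := by
  obtain ⟨N, rfl⟩ : ∃ N, n = N + 1 := ⟨n - 1, by omega⟩
  induction h using MvPolynomial.induction_on with
  | C b =>
    refine ⟨0, fun j => if j = 0 then Polynomial.C b else 0, ?_⟩
    rw [mul_zero, zero_add, Finset.sum_range_succ']
    simp only [Nat.succ_ne_zero, if_false, map_zero, zero_mul, Finset.sum_const_zero, zero_add,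
      if_true, pow_zero, mul_one, Polynomial.aeval_C]
    rfl
  | add p q hp hq =>
    obtain ⟨q1, c1, h1⟩ := hp
    obtain ⟨q2, c2, h2⟩ := hq
    refine ⟨q1 + q2, fun j => c1 j + c2 j, ?_⟩
    simp only [map_add, add_mul, Finset.sum_add_distrib]
    rw [mul_add]
    nth_rewrite 1 [h1]
    nth_rewrite 1 [h2]
    ring
  | mul_X p i hp =>
    obtain ⟨q1, c1, h1⟩ := hp
    rcases fin2 i with rfl | rfl
    · refine ⟨q1 * X 0, fun j => c1 j * Polynomial.X, ?_⟩
      simp only [map_mul, Polynomial.aeval_X]
      nth_rewrite 1 [h1]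
      rw [add_mul, Finset.sum_mul]
      congr 1
      · ring
      · refine Finset.sum_congr rfl fun j _ => ?_
        ring
    · refine ⟨q1 * X 1 + Polynomial.aeval (X 0) (c1 N), fun j =>
        (if j = 0 then 0 else c1 (j - 1)) + (if j = 0 then Polynomial.C μ * c1 N else 0) -
          a j * c1 N, ?_⟩
      have e1 : ∑ j ∈ Finset.range (N + 1), Polynomial.aeval (X 0 : B k)
          ((if j = 0 then 0 else c1 (j - 1)) + (if j = 0 then Polynomial.C μ * c1 N else 0) -
            a j * c1 N) * X 1 ^ j =
          ∑ j ∈ Finset.range (N + 1), Polynomial.aeval (X 0 : B k)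
            (if j = 0 then 0 else c1 (j - 1)) * X 1 ^ j +
          ∑ j ∈ Finset.range (N + 1), Polynomial.aeval (X 0 : B k)
            (if j = 0 then Polynomial.C μ * c1 N else 0) * X 1 ^ j -
          (∑ j ∈ Finset.range (N + 1), Polynomial.aeval (X 0 : B k) (a j) * X 1 ^ j) *
            Polynomial.aeval (X 0 : B k) (c1 N) := by
        rw [Finset.sum_mul, ← Finset.sum_add_distrib, ← Finset.sum_sub_distrib]
        refine Finset.sum_congr rfl fun j _ => ?_
        rw [map_sub, map_add, map_mul]
        ring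
      have e2 : ∑ j ∈ Finset.range (N + 1), Polynomial.aeval (X 0 : B k)
            (if j = 0 then 0 else c1 (j - 1)) * X 1 ^ j =
          (∑ j ∈ Finset.range N, Polynomial.aeval (X 0 : B k) (c1 j) * X 1 ^ j) * X 1 := by
        rw [Finset.sum_range_succ', Finset.sum_mul]
        simp only [Nat.succ_ne_zero, if_false, Nat.add_sub_cancel, if_true, map_zero, zero_mul,
          add_zero]
        refine Finset.sum_congr rfl fun j _ => ?_
        ring
      have e3 : ∑ j ∈ Finset.range (N + 1), Polynomial.aeval (X 0 : B k)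
            (if j = 0 then Polynomial.C μ * c1 N else 0) * X 1 ^ j =
          C μ * Polynomial.aeval (X 0 : B k) (c1 N) := by
        rw [Finset.sum_range_succ']
        simp only [Nat.succ_ne_zero, if_false, map_zero, zero_mul, Finset.sum_const_zero, zero_add,
          if_true, pow_zero, mul_one, map_mul, Polynomial.aeval_C]
        rfl
      have e4 : p * X 1 = (f - C μ) * (q1 * X 1) +
          ((∑ j ∈ Finset.range N, Polynomial.aeval (X 0 : B k) (c1 j) * X 1 ^ j) * X 1 +
            Polynomial.aeval (X 0 : B k) (c1 N) * X 1 ^ (N + 1)) := by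
        nth_rewrite 1 [h1]
        rw [Finset.sum_range_succ]
        ring
      have e5 : X 1 ^ (N + 1) = f -
          ∑ j ∈ Finset.range (N + 1), Polynomial.aeval (X 0 : B k) (a j) * X 1 ^ j := by
        rw [hf]
        ring
      rw [e1, e2, e3, e4, e5]
      ring

end general

theorem ksp (k : Type) [Field k] [IsAlgClosed k] [CharZero k] : S_KSP k := by
  intro hSPR hROT hEVF hMON n f φ ζ hOP hunit μ h
  have hf := hEVF n f φ ζ hOP
  obtain ⟨a, ha⟩ := hMON n f φ ζ hOP
  obtain ⟨hn, hζ, hprod⟩ := hOP
  obtain ⟨S, hS⟩ := hSPR μ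
  have hζn : ∀ i : ℕ, (ζ ^ i) ^ n = 1 := fun i => by
    rw [← pow_mul, mul_comm, pow_mul, hζ.pow_eq_one, one_pow]
  have hζ0 : ∀ i : ℕ, ζ ^ i ≠ 0 := fun i h0 => by
    have := hζn i
    rw [h0, zero_pow hn.ne'] at this
    exact zero_ne_one this
  -- the value of f - C μ
  have hfμ : sp μ (ev n φ (f - C μ)) = 0 := by
    rw [map_sub, hf]
    have h1 : ev n φ (C μ) = algebraMap k (L k) μ := (ev n φ).commutes μ
    rw [h1, algMap_eq]
    refine HahnSeries.ext (funext fun i => ?_)
    rw [sp_coeff, HahnSeries.coeff_sub]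
    unfold lam
    by_cases hi : i = 0
    · subst hi
      simp
    · rw [HahnSeries.coeff_single_of_ne hi, HahnSeries.coeff_single_of_ne hi]
      simp
  constructor
  · intro h0
    obtain ⟨q, c, hq⟩ := division n hn f a ha μ h
    -- values at all conjugates
    let s : ℕ → L k := fun i => rot (ζ ^ i) φ
    have hval : ∀ (i : ℕ) (g : B k), sp μ (ev n φ g) = 0 → S (ev n (s i) g) = 0 := by
      intro i g hg
      obtain ⟨R, hR⟩ := hROT (ζ ^ i) (hζ0 i)
      rw [hS]
      show sp μ (ev n (rot (ζ ^ i) φ) g) = 0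
      rw [← rot_ev R (ζ ^ i) hR n (hζn i) φ g]
      exact sp_rot μ _ _ hg
    let γ : ℕ → LaurentSeries k := fun j => S (Polynomial.aeval (tp (-(n : ℤ)) : L k) (c j))
    have hroot : ∀ i, ∑ j ∈ Finset.range n, γ j * (S (s i)) ^ j = 0 := by
      intro i
      have h1 := hval i h h0
      rw [hq, map_add, map_add, map_mul, map_mul, hval i _ hfμ, zero_mul, zero_add, map_sum,
        map_sum] at h1
      rw [← h1]
      refine Finset.sum_congr rfl fun j _ => ?_
      rw [map_mul, map_mul, map_pow, map_pow, ev_X1, ← Polynomial.aeval_algHom_apply, ev_X0]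
    -- distinctness
    have hdist : ∀ i, i < n → ∀ j, j < n → S (s i) = S (s j) → i = j := by
      intro i hi j hj hij
      by_contra hne
      obtain ⟨g, hg⟩ := hunit
      obtain ⟨R, hR⟩ := hROT (ζ ^ i) (hζ0 i)
      have h1 : ev n (s i) (pderiv 1 f) =
          ∏ j ∈ (Finset.range n).erase i, (s i - s j) := by
        have h2 := congrArg Polynomial.derivative hprod
        rw [Polynomial.derivative_sub, Polynomial.derivative_C, sub_zero, deriv_evY] at h2
        have h3 := congrArg (Polynomial.eval (s i)) h2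
        rw [eval_evY] at h3
        rw [h3]
        exact deriv_prod n s i hi
      have h4 : ev n (s i) (pderiv 1 f) * R g = 1 := by
        show ev n (rot (ζ ^ i) φ) (pderiv 1 f) * R g = 1
        rw [← rot_ev R (ζ ^ i) hR n (hζn i) φ, ← hR, ← map_mul, hg, map_one]
      have h5 := congrArg S h4
      rw [h1, map_mul, map_one, map_prod] at h5
      have h6 : ∏ j ∈ (Finset.range n).erase i, S (s i - s j) = 0 := by
        apply Finset.prod_eq_zero (Finset.mem_erase.mpr ⟨Ne.symm hne, Finset.mem_range.mpr hj⟩)
        rw [map_sub, hij, sub_self]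
      rw [h6, zero_mul] at h5
      exact zero_ne_one h5
    -- the polynomial vanishes
    let p : Polynomial (LaurentSeries k) :=
      ∑ j : Fin n, Polynomial.C (γ (j : ℕ)) * Polynomial.X ^ (j : ℕ)
    have hp : p = 0 := by
      apply Polynomial.eq_zero_of_natDegree_lt_card_of_eval_eq_zero p
        (f := fun i : Fin n => S (s (i : ℕ)))
      · intro i j hij
        exact Fin.ext (hdist i i.2 j j.2 hij)
      · intro i
        rw [Polynomial.eval_finsetSum]
        have h1 := hroot (i : ℕ)
        rw [← Fin.sum_univ_eq_sum_range (fun j => γ j * (S (s (i : ℕ))) ^ j) n] at h1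
        rw [← h1]
        refine Finset.sum_congr rfl fun j _ => ?_
        rw [Polynomial.eval_mul, Polynomial.eval_C, Polynomial.eval_pow, Polynomial.eval_X]
      · rw [Fintype.card_fin]
        have hdeg : p.degree < n := Polynomial.degree_sum_fin_lt _
        by_cases hp0 : p = 0
        · rw [hp0, Polynomial.natDegree_zero]
          exact hn
        · exact (Polynomial.natDegree_lt_iff_degree_lt hp0).mpr hdeg
    have hγ : ∀ j, j < n → γ j = 0 := by
      intro j hj
      have h1 : p.coeff j = γ j := by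
        show (∑ j : Fin n, Polynomial.C (γ (j : ℕ)) * Polynomial.X ^ (j : ℕ)).coeff j = γ j
        rw [Polynomial.finsetSum_coeff, Finset.sum_eq_single (⟨j, hj⟩ : Fin n)]
        · rw [Polynomial.coeff_C_mul_X_pow, if_pos rfl]
        · intro i _ hi
          rw [Polynomial.coeff_C_mul_X_pow, if_neg]
          intro h2
          exact hi (Fin.ext h2.symm)
        · intro h2
          exact absurd (Finset.mem_univ _) h2
      rw [← h1, hp, Polynomial.coeff_zero]
    have hc : ∀ j, j < n → c j = 0 := by
      intro j hj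
      ext m
      have h1 := hγ j hj
      have h2 : (sp μ (Polynomial.aeval (tp (-(n : ℤ)) : L k) (c j))).coeff
          (-((n * m : ℕ) : ℤ)) = 0 := by
        rw [← hS]
        show (γ j).coeff _ = 0
        rw [h1]
        rfl
      rw [sp_coeff, coeff_aeval n hn, Polynomial.eval_C] at h2
      rw [h2, Polynomial.coeff_zero]
    refine ⟨q, ?_⟩
    rw [hq, Finset.sum_eq_zero, add_zero]
    intro j hj
    rw [hc j (Finset.mem_range.mp hj), map_zero, zero_mul]
  · rintro ⟨q, rfl⟩
    rw [map_mul, ← hS, map_mul, hS, hfμ, zero_mul]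

end Pool.Agent.H235R2.OPC
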