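import Mathlib

set_option autoImplicit false

namespace Pool.Agent.H235R2.Sefe

open Set Topology

/-- `z` is a proper crossing of the sets `A` and `B` of the plane: some homeomorphism of the plane
sends `z` to `0` and, near `z`, sends `A` to the real axis and `B` to the imaginary axis. -/
def ProperCrossing (A B : Set ℂ) (z : ℂ) : Prop :=
  ∃ φ : ℂ ≃ₜ ℂ, φ z = 0 ∧ ∀ᶠ w in 𝓝 z, (w ∈ A ↔ (φ w).im = 0) ∧ (w ∈ B ↔ (φ w).re = 0)

/-- A drawing of a simple graph `G` in the plane (the complex numbers). The vertices are distinct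
points, and every edge `e` is a simple arc, parametrised by `[0,1]`, that joins the points of its
two end-vertices and passes through no other vertex. Any two arcs share finitely many points, and
every common interior point of two arcs is a proper crossing. -/
structure Drawing {V : Type} (G : SimpleGraph V) where
  /-- the position of a vertex -/
  pos : V → ℂ
  pos_injective : Function.Injective pos
  /-- the arc of an edge, used on `[0,1]` only -/
  arc : Sym2 V → ℝ → ℂ
  arc_continuousOn : ∀ e ∈ G.edgeSet, ContinuousOn (arc e) (Icc 0 1)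
  arc_injOn : ∀ e ∈ G.edgeSet, InjOn (arc e) (Icc 0 1)
  arc_ends : ∀ u v, G.Adj u v →
    (arc s(u, v) 0 = pos u ∧ arc s(u, v) 1 = pos v) ∨
      (arc s(u, v) 0 = pos v ∧ arc s(u, v) 1 = pos u)
  arc_avoids : ∀ e ∈ G.edgeSet, ∀ t ∈ Ioo (0 : ℝ) 1, ∀ w, arc e t ≠ pos w
  finite_inter : ∀ e ∈ G.edgeSet, ∀ f ∈ G.edgeSet, e ≠ f →
    (arc e '' Icc 0 1 ∩ arc f '' Icc 0 1).Finite
  proper : ∀ e ∈ G.edgeSet, ∀ f ∈ G.edgeSet, e ≠ f →
    ∀ z ∈ arc e '' Ioo 0 1 ∩ arc f '' Ioo 0 1,
      ProperCrossing (arc e '' Icc 0 1) (arc f '' Icc 0 1) z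

variable {V : Type} {G : SimpleGraph V}

/-- The crossings of two edges: the common interior points of their arcs. -/
def Drawing.crossings (D : Drawing G) (e f : Sym2 V) : Set ℂ :=
  D.arc e '' Ioo 0 1 ∩ D.arc f '' Ioo 0 1

/-- Two edges are independent if they have no common endpoint. -/
def Independent (e f : Sym2 V) : Prop := ∀ v, ¬ (v ∈ e ∧ v ∈ f)

/-- The number of (unordered) pairs of independent edges that cross an odd number of times. -/
noncomputable def Drawing.iocr (D : Drawing G) : ℕ :=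
  {p : Sym2 (Sym2 V) | ∃ e ∈ G.edgeSet, ∃ f ∈ G.edgeSet, p = s(e, f) ∧ Independent e f ∧
    Odd (D.crossings e f).ncard}.ncard

/-- The subdrawing of a subgraph. -/
def Drawing.sub (D : Drawing G) {H : SimpleGraph V} (h : H ≤ G) : Drawing H where
  pos := D.pos
  pos_injective := D.pos_injective
  arc := D.arc
  arc_continuousOn e he := D.arc_continuousOn e (SimpleGraph.edgeSet_mono h he)
  arc_injOn e he := D.arc_injOn e (SimpleGraph.edgeSet_mono h he)
  arc_ends u v huv := D.arc_ends u v (h huv)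
  arc_avoids e he := D.arc_avoids e (SimpleGraph.edgeSet_mono h he)
  finite_inter e he f hf := D.finite_inter e (SimpleGraph.edgeSet_mono h he) f
    (SimpleGraph.edgeSet_mono h hf)
  proper e he f hf := D.proper e (SimpleGraph.edgeSet_mono h he) f
    (SimpleGraph.edgeSet_mono h hf)

/-- `siocr` of a drawing of the union of two graphs (with common vertex set): the sum of `iocr`
of the two subdrawings. -/
noncomputable def Drawing.siocr {G₁ G₂ : SimpleGraph V} (D : Drawing (G₁ ⊔ G₂)) : ℕ :=
  (D.sub (le_sup_left : G₁ ≤ G₁ ⊔ G₂)).iocr + (D.sub (le_sup_right : G₂ ≤ G₁ ⊔ G₂)).iocr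

/-- `siocr` of a pair of graphs: the minimum over all drawings of their union. -/
noncomputable def siocr (G₁ G₂ : SimpleGraph V) : ℕ :=
  sInf {n | ∃ D : Drawing (G₁ ⊔ G₂), D.siocr = n}

/-- A drawing is planar if no two edges cross. -/
def Drawing.Planar (D : Drawing G) : Prop :=
  ∀ e ∈ G.edgeSet, ∀ f ∈ G.edgeSet, e ≠ f → D.crossings e f = ∅

/-- The pair `(G₁, G₂)` of graphs with common vertex set `V` admits a simultaneous embedding with
fixed edges: there are planar drawings of `G₁` and `G₂` in which every vertex is the same point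
and every shared edge is the same arc. -/
def AdmitsSEFE (G₁ G₂ : SimpleGraph V) : Prop :=
  ∃ (Γ₁ : Drawing G₁) (Γ₂ : Drawing G₂), Γ₁.Planar ∧ Γ₂.Planar ∧
    (∀ v, Γ₁.pos v = Γ₂.pos v) ∧
    ∀ e ∈ G₁.edgeSet ∩ G₂.edgeSet, Γ₁.arc e '' Icc 0 1 = Γ₂.arc e '' Icc 0 1

end Pool.Agent.H235R2.Sefe
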