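import Pool.Agent.H235R2.Turn
import Pool.Agent.H235R2.SefeDefs

set_option autoImplicit false

namespace Pool.Agent.H235R2.Poly

open Set Topology Pool.Agent.H235R2.Turn Pool.Agent.H235R2.Sefe

/-- The polygonal curve through `P 0, …, P m`. -/
noncomputable def pl (P : ℕ → ℂ) (m : ℕ) (t : ℝ) : ℂ :=
  P 0 + ∑ i ∈ Finset.range m, ((cl (t * m - i) : ℝ) : ℂ) * (P (i + 1) - P i)

lemma pl_cont (P : ℕ → ℂ) (m : ℕ) : Continuous (pl P m) := by
  unfold pl
  refine continuous_const.add (continuous_finsetSum _ fun i _ => ?_)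
  refine (Complex.continuous_ofReal.comp (cl_cont.comp ?_)).mul continuous_const
  fun_prop

lemma sum_eq (P : ℕ → ℂ) (s : ℝ) (k : ℕ) (h0 : (k : ℝ) ≤ s) (h1 : s ≤ k + 1) (n : ℕ)
    (hn : k + 1 ≤ n) :
    ∑ i ∈ Finset.range n, ((cl (s - i) : ℝ) : ℂ) * (P (i + 1) - P i) =
      P k - P 0 + ((s - k : ℝ) : ℂ) * (P (k + 1) - P k) := by
  induction n, hn using Nat.le_induction with
  | base =>
    rw [Finset.sum_range_succ, cl_of_mem ⟨by linarith, by linarith⟩]
    congr 1
    rw [← Finset.sum_range_sub P k]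
    apply Finset.sum_congr rfl
    intro i hi
    have hik : (i : ℝ) + 1 ≤ k := by
      have := Finset.mem_range.mp hi
      exact_mod_cast this
    rw [cl_of_one_le (by linarith)]
    simp
  | succ n hn ih =>
    rw [Finset.sum_range_succ, ih]
    have : (k : ℝ) + 1 ≤ n := by exact_mod_cast hn
    rw [cl_of_nonpos (by linarith)]
    simp

lemma pl_eq (P : ℕ → ℂ) {m k : ℕ} (hk : k < m) {t : ℝ} (h0 : (k : ℝ) ≤ t * m)
    (h1 : t * m ≤ k + 1) :
    pl P m t = P k + ((t * m - k : ℝ) : ℂ) * (P (k + 1) - P k) := by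
  unfold pl
  rw [sum_eq P (t * m) k h0 h1 m hk]
  ring

/-- every parameter lies in a piece. -/
lemma exists_piece {m : ℕ} (hm : 0 < m) {t : ℝ} (ht : t ∈ Icc (0 : ℝ) 1) :
    ∃ k < m, (k : ℝ) ≤ t * m ∧ t * m ≤ k + 1 := by
  have hm' : (0 : ℝ) < m := by exact_mod_cast hm
  have h0 : 0 ≤ t * m := mul_nonneg ht.1 hm'.le
  by_cases h : ⌊t * m⌋₊ < m
  · exact ⟨⌊t * m⌋₊, h, Nat.floor_le h0, (Nat.lt_floor_add_one _).le⟩
  · push Not at h
    refine ⟨m - 1, by omega, ?_, ?_⟩
    · have : (m : ℝ) ≤ ⌊t * m⌋₊ := by exact_mod_cast h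
      have h2 := Nat.floor_le h0
      have h3 : ((m - 1 : ℕ) : ℝ) ≤ m := by exact_mod_cast Nat.sub_le _ _
      linarith
    · have h3 : ((m - 1 : ℕ) : ℝ) + 1 = m := by
        have : m - 1 + 1 = m := by omega
        exact_mod_cast this
      rw [h3]
      nlinarith [ht.2]

lemma pl_zero (P : ℕ → ℂ) {m : ℕ} (hm : 0 < m) : pl P m 0 = P 0 := by
  rw [pl_eq P (k := 0) hm (by simp) (by simp)]
  simp

lemma pl_one (P : ℕ → ℂ) {m : ℕ} (hm : 0 < m) : pl P m 1 = P m := by
  have h3 : ((m - 1 : ℕ) : ℝ) + 1 = m := by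
    have : m - 1 + 1 = m := by omega
    exact_mod_cast this
  rw [pl_eq P (k := m - 1) (by omega) (by rw [one_mul]; linarith) (by rw [one_mul, h3])]
  have : m - 1 + 1 = m := by omega
  rw [this, one_mul]
  have : ((m : ℝ) - ((m - 1 : ℕ) : ℝ)) = 1 := by linarith
  rw [this]; simp

/-- point on a segment -/
def On (a b z : ℂ) : Prop := ∃ r ∈ Icc (0 : ℝ) 1, z = a + (r : ℂ) * (b - a)

/-- Every point of the curve is on a piece, with its parameter. -/
lemma pl_on (P : ℕ → ℂ) {m : ℕ} (hm : 0 < m) {t : ℝ} (ht : t ∈ Icc (0 : ℝ) 1) :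
    ∃ k < m, ∃ r ∈ Icc (0 : ℝ) 1, t * m = k + r ∧ pl P m t = P k + (r : ℂ) * (P (k + 1) - P k) := by
  obtain ⟨k, hk, h0, h1⟩ := exists_piece hm ht
  exact ⟨k, hk, t * m - k, ⟨by linarith, by linarith⟩, by ring, pl_eq P hk h0 h1⟩

lemma pl_at (P : ℕ → ℂ) {m k : ℕ} (hk : k < m) {r : ℝ} (hr : r ∈ Icc (0 : ℝ) 1) :
    pl P m ((k + r) / m) = P k + (r : ℂ) * (P (k + 1) - P k) := by
  have hm' : (0 : ℝ) < m := by exact_mod_cast (by omega : 0 < m)
  have e : (k + r) / m * m = k + r := by field_simp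
  rw [pl_eq P hk (by rw [e]; linarith [hr.1]) (by rw [e]; linarith [hr.2]), e]
  congr 2; push_cast; ring

/-- twice the signed area of a triangle -/
def ori (a b c : ℂ) : ℝ := (b.re - a.re) * (c.im - a.im) - (b.im - a.im) * (c.re - a.re)

lemma ori_lin (a b c d : ℂ) (r : ℝ) :
    ori a b (c + (r : ℂ) * (d - c)) = (1 - r) * ori a b c + r * ori a b d := by
  simp only [ori, Complex.add_re, Complex.mul_re, Complex.add_im, Complex.mul_im,
    Complex.ofReal_re, Complex.ofReal_im, Complex.sub_re, Complex.sub_im]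
  ring

lemma ori_self1 (a b : ℂ) : ori a b a = 0 := by simp [ori]
lemma ori_self2 (a b : ℂ) : ori a b b = 0 := by simp only [ori]; ring

lemma ori_on {a b z : ℂ} (h : On a b z) : ori a b z = 0 := by
  obtain ⟨r, -, rfl⟩ := h
  rw [ori_lin, ori_self1, ori_self2]; ring

/-- separated segments -/
lemma sep_disj {a b c d z : ℂ} (h : 0 < ori a b c * ori a b d) (h1 : On a b z) (h2 : On c d z) :
    False := by
  have h3 := ori_on h1
  obtain ⟨r, hr, rfl⟩ := h2
  rw [ori_lin] at h3
  have h4 : 0 ≤ 1 - r := by linarith [hr.2]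
  have h5 : ((1 - r) * ori a b c + r * ori a b d) * ori a b c = 0 := by rw [h3, zero_mul]
  have h6 : 0 ≤ ori a b c ^ 2 := sq_nonneg _
  rcases eq_or_lt_of_le hr.1 with h0 | h0
  · rw [← h0] at h5
    have : ori a b c ^ 2 = 0 := by nlinarith
    have : ori a b c = 0 := by simpa using this
    rw [this] at h; simp at h
  · nlinarith [mul_pos h0 h, mul_nonneg h4 h6]

/-- The parameters of a crossing point are unique. -/
lemma cross_unique {a b c d z : ℂ} (h : ori a b c * ori a b d < 0) (h1 : On a b z)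
    (h2 : On c d z) : z = c + ((ori a b c / (ori a b c - ori a b d) : ℝ) : ℂ) * (d - c) := by
  have h3 := ori_on h1
  obtain ⟨r, hr, rfl⟩ := h2
  rw [ori_lin] at h3
  have hne : ori a b c - ori a b d ≠ 0 := by
    intro h0
    have : ori a b c = ori a b d := by linarith
    rw [this] at h
    nlinarith [mul_self_nonneg (ori a b d)]
  have : r = ori a b c / (ori a b c - ori a b d) := by
    rw [eq_div_iff hne]; linarith
  rw [← this]

lemma frac_mem {x y : ℝ} (h : x * y < 0) : x / (x - y) ∈ Ioo (0 : ℝ) 1 := by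
  rcases lt_trichotomy x 0 with h0 | h0 | h0
  · have hy : 0 < y := by
      by_contra hc
      push Not at hc
      nlinarith
    constructor
    · exact div_pos_of_neg_of_neg h0 (by linarith)
    · rw [div_lt_one_of_neg (by linarith)]; linarith
  · rw [h0] at h; simp at h
  · have hy : y < 0 := by
      by_contra hc
      push Not at hc
      nlinarith
    constructor
    · exact div_pos h0 (by linarith)
    · rw [div_lt_one (by linarith)]; linarith

lemma cross_point {a b c d : ℂ} (h : ori a b c * ori a b d < 0) :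
    c + ((ori a b c / (ori a b c - ori a b d) : ℝ) : ℂ) * (d - c) =
      a + ((ori c d a / (ori c d a - ori c d b) : ℝ) : ℂ) * (b - a) := by
  have hne : ori a b c - ori a b d ≠ 0 := by
    intro h0
    have : ori a b c = ori a b d := by linarith
    rw [this] at h
    nlinarith [mul_self_nonneg (ori a b d)]
  have hne' : ori c d a - ori c d b ≠ 0 := by
    have : ori c d a - ori c d b = -(ori a b c - ori a b d) := by
      simp only [ori]; ring
    rw [this]; exact neg_ne_zero.mpr hne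
  apply Complex.ext
  · simp only [Complex.add_re, Complex.mul_re, Complex.ofReal_re, Complex.ofReal_im,
      Complex.sub_re, Complex.sub_im, zero_mul, sub_zero]
    field_simp
    simp only [ori]
    ring
  · simp only [Complex.add_im, Complex.mul_im, Complex.ofReal_re, Complex.ofReal_im,
      Complex.sub_re, Complex.sub_im, zero_mul, add_zero]
    field_simp
    simp only [ori]
    ring

end Pool.Agent.H235R2.Poly
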