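import Pool.Agent.H235R2.Poly

set_option autoImplicit false

namespace Pool.Agent.H235R2.Poly

open Set Topology Pool.Agent.H235R2.Turn Pool.Agent.H235R2.Sefe

def Sep (a b c d : ℂ) : Prop := 0 < ori a b c * ori a b d ∨ 0 < ori c d a * ori c d b
def Crs (a b c d : ℂ) : Prop := ori a b c * ori a b d < 0 ∧ ori c d a * ori c d b < 0

/-- conditions for a simple polygonal curve -/
structure Simple (P : ℕ → ℂ) (m : ℕ) : Prop where
  pos : 0 < m
  ne : ∀ k < m, P k ≠ P (k + 1)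
  turn : ∀ k, k + 1 < m → ori (P k) (P (k + 1)) (P (k + 2)) ≠ 0
  sep : ∀ k l, k + 1 < l → l < m → Sep (P k) (P (k + 1)) (P l) (P (l + 1))

lemma Sep.false {a b c d z : ℂ} (h : Sep a b c d) (h1 : On a b z) (h2 : On c d z) : False := by
  rcases h with h | h
  · exact sep_disj h h1 h2
  · exact sep_disj h h2 h1

lemma param_inj {a b : ℂ} (h : a ≠ b) {r r' : ℝ} (he : a + (r : ℂ) * (b - a) =
    a + (r' : ℂ) * (b - a)) : r = r' := by
  have h1 : (r : ℂ) * (b - a) = r' * (b - a) := by linear_combination he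
  exact_mod_cast mul_right_cancel₀ (sub_ne_zero.mpr h.symm) h1

variable {P : ℕ → ℂ} {m : ℕ}

lemma aux_lt (h : Simple P m) {k l : ℕ} (hk : k < m) (hl : l < m) (hkl : k < l) {r r' : ℝ}
    (hr : r ∈ Icc (0 : ℝ) 1) (hr' : r' ∈ Icc (0 : ℝ) 1)
    (he : P k + (r : ℂ) * (P (k + 1) - P k) = P l + (r' : ℂ) * (P (l + 1) - P l)) :
    (k : ℝ) + r = l + r' := by
  by_cases hl1 : l = k + 1
  · subst hl1
    have h1 : ori (P k) (P (k + 1)) (P (k + 1) + (r' : ℂ) * (P (k + 1 + 1) - P (k + 1))) = 0 :=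
      ori_on ⟨r, hr, he.symm⟩
    rw [ori_lin, ori_self2] at h1
    have h2 : r' = 0 := by
      rcases mul_eq_zero.mp (show r' * ori (P k) (P (k + 1)) (P (k + 1 + 1)) = 0 by linarith)
        with h | h
      · exact h
      · exact absurd h (Simple.turn ‹_› k hl)
    rw [h2] at he
    have h3 : r = 1 := by
      apply param_inj (h.ne k hk)
      rw [he]; simp
    rw [h2, h3]; push_cast; ring
  · exfalso
    exact (h.sep k l (by omega) hl).false ⟨r, hr, rfl⟩ ⟨r', hr', he⟩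

lemma piece_inj (h : Simple P m) {k l : ℕ} (hk : k < m) (hl : l < m) {r r' : ℝ}
    (hr : r ∈ Icc (0 : ℝ) 1) (hr' : r' ∈ Icc (0 : ℝ) 1)
    (he : P k + (r : ℂ) * (P (k + 1) - P k) = P l + (r' : ℂ) * (P (l + 1) - P l)) :
    (k : ℝ) + r = l + r' := by
  rcases lt_trichotomy k l with h1 | h1 | h1
  · exact aux_lt h hk hl h1 hr hr' he
  · subst h1
    rw [param_inj (h.ne k hk) he]
  · exact (aux_lt h hl hk h1 hr' hr he.symm).symm

lemma pl_inj (h : Simple P m) : InjOn (pl P m) (Icc 0 1) := by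
  intro t ht t' ht' he
  obtain ⟨k, hk, r, hr, h1, h2⟩ := pl_on P h.pos ht
  obtain ⟨l, hl, r', hr', h1', h2'⟩ := pl_on P h.pos ht'
  rw [h2, h2'] at he
  have := piece_inj h hk hl hr hr' he
  rw [← h1, ← h1'] at this
  have hm : (m : ℝ) ≠ 0 := by exact_mod_cast h.pos.ne'
  exact mul_right_cancel₀ hm this

/-- avoidance of a vertex position -/
structure Avoid (P : ℕ → ℂ) (m : ℕ) (w : ℂ) : Prop where
  left : ∀ k < m, P k = w → k = 0
  right : ∀ k < m, P (k + 1) = w → k + 1 = m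
  off : ∀ k < m, P k ≠ w → P (k + 1) ≠ w → ori (P k) (P (k + 1)) w ≠ 0

lemma pl_avoid (h : Simple P m) {w : ℂ} (hw : Avoid P m w) {t : ℝ} (ht : t ∈ Ioo (0 : ℝ) 1) :
    pl P m t ≠ w := by
  intro he
  have hm : (0 : ℝ) < m := by exact_mod_cast h.pos
  obtain ⟨k, hk, r, hr, h1, h2⟩ := pl_on P h.pos ⟨ht.1.le, ht.2.le⟩
  by_cases ha : P k = w
  · have hk0 := hw.left k hk ha
    have : r = 0 := by
      apply param_inj (h.ne k hk)
      rw [← h2, he, ha]; simp
    rw [this, hk0] at h1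
    have : t * m = 0 := by rw [h1]; simp
    rcases mul_eq_zero.mp this with h | h
    · linarith [ht.1]
    · linarith
  · by_cases hb : P (k + 1) = w
    · have hk1 := hw.right k hk hb
      have : r = 1 := by
        apply param_inj (h.ne k hk)
        rw [← h2, he, hb]; push_cast; ring
      have h3 : ((k : ℝ) + 1) = m := by exact_mod_cast hk1
      rw [this, h3] at h1
      have : t = 1 := by
        apply mul_right_cancel₀ hm.ne'
        rw [h1, one_mul]
      linarith [ht.2]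
    · exact hw.off k hk ha hb (ori_on ⟨r, hr, by rw [← h2, he]⟩)

/-- interior points of pieces are interior points of the curve -/
lemma mem_Ioo {k : ℕ} (hk : k < m) {r : ℝ} (hr : r ∈ Ioo (0 : ℝ) 1) :
    ((k : ℝ) + r) / m ∈ Ioo (0 : ℝ) 1 := by
  have hm : (0 : ℝ) < m := by exact_mod_cast (by omega : 0 < m)
  have hk' : (k : ℝ) + 1 ≤ m := by exact_mod_cast hk
  constructor
  · apply div_pos _ hm
    have : (0 : ℝ) ≤ k := Nat.cast_nonneg _
    linarith [hr.1]
  · rw [div_lt_one hm]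
    linarith [hr.2]

/-- segments with a common end -/
def Touch (W : Set ℂ) (a b c d : ℂ) : Prop :=
  (a = c ∧ ori a b d ≠ 0 ∧ a ∈ W) ∨ (a = d ∧ ori a b c ≠ 0 ∧ a ∈ W) ∨
  (b = c ∧ ori b a d ≠ 0 ∧ b ∈ W) ∨ (b = d ∧ ori b a c ≠ 0 ∧ b ∈ W)

lemma On.symm {a b z : ℂ} (h : On a b z) : On b a z := by
  obtain ⟨r, hr, rfl⟩ := h
  refine ⟨1 - r, ⟨by linarith [hr.2], by linarith [hr.1]⟩, ?_⟩
  push_cast; ring

lemma touch_aux {a b d z : ℂ} (h : ori a b d ≠ 0) (h1 : On a b z) (h2 : On a d z) : z = a := by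
  have h3 := ori_on h1
  obtain ⟨r, -, rfl⟩ := h2
  rw [ori_lin, ori_self1] at h3
  have : r = 0 := by
    rcases mul_eq_zero.mp (show r * ori a b d = 0 by linarith) with h' | h'
    · exact h'
    · exact absurd h' h
  rw [this]; simp

lemma Touch.mem {W : Set ℂ} {a b c d z : ℂ} (h : Touch W a b c d) (h1 : On a b z)
    (h2 : On c d z) : z ∈ W := by
  rcases h with ⟨e, h, hW⟩ | ⟨e, h, hW⟩ | ⟨e, h, hW⟩ | ⟨e, h, hW⟩
  · subst e; rw [touch_aux h h1 h2]; exact hW
  · subst e; rw [touch_aux h h1 h2.symm]; exact hW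
  · subst e; rw [touch_aux h h1.symm h2]; exact hW
  · subst e; rw [touch_aux h h1.symm h2.symm]; exact hW

variable {P' : ℕ → ℂ} {m' : ℕ}

/-- two curves in general position -/
def Nice (W : Set ℂ) (P : ℕ → ℂ) (m : ℕ) (P' : ℕ → ℂ) (m' : ℕ) : Prop :=
  ∀ k < m, ∀ l < m', Sep (P k) (P (k + 1)) (P' l) (P' (l + 1)) ∨
    Crs (P k) (P (k + 1)) (P' l) (P' (l + 1)) ∨ Touch W (P k) (P (k + 1)) (P' l) (P' (l + 1))

/-- the crossing point of two pieces -/
noncomputable def X (P P' : ℕ → ℂ) (x : ℕ × ℕ) : ℂ :=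
  P' x.2 + ((ori (P x.1) (P (x.1 + 1)) (P' x.2) / (ori (P x.1) (P (x.1 + 1)) (P' x.2) -
    ori (P x.1) (P (x.1 + 1)) (P' (x.2 + 1))) : ℝ) : ℂ) * (P' (x.2 + 1) - P' x.2)

open Classical in
/-- the crossing pairs of pieces -/
noncomputable def K (P : ℕ → ℂ) (m : ℕ) (P' : ℕ → ℂ) (m' : ℕ) : Finset (ℕ × ℕ) :=
  (Finset.range m ×ˢ Finset.range m').filter fun x =>
    Crs (P x.1) (P (x.1 + 1)) (P' x.2) (P' (x.2 + 1))

lemma mem_K {x : ℕ × ℕ} : x ∈ K P m P' m' ↔ (x.1 < m ∧ x.2 < m') ∧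
    Crs (P x.1) (P (x.1 + 1)) (P' x.2) (P' (x.2 + 1)) := by
  simp [K]

lemma X_left {x : ℕ × ℕ} (hx : x ∈ K P m P' m') : ∃ r ∈ Ioo (0 : ℝ) 1,
    X P P' x = P x.1 + (r : ℂ) * (P (x.1 + 1) - P x.1) := by
  rw [mem_K] at hx
  exact ⟨_, frac_mem hx.2.2, cross_point hx.2.1⟩

lemma X_right {x : ℕ × ℕ} (hx : x ∈ K P m P' m') : ∃ r ∈ Ioo (0 : ℝ) 1,
    X P P' x = P' x.2 + (r : ℂ) * (P' (x.2 + 1) - P' x.2) := by
  rw [mem_K] at hx
  exact ⟨_, frac_mem hx.2.1, rfl⟩

lemma Ioo_sub {r : ℝ} (hr : r ∈ Ioo (0 : ℝ) 1) : r ∈ Icc (0 : ℝ) 1 := ⟨hr.1.le, hr.2.le⟩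

lemma crossing_set {W : Set ℂ} (h : Simple P m) (h' : Simple P' m')
    (hn : Nice W P m P' m') (hW : ∀ w ∈ W, Avoid P m w) :
    pl P m '' Ioo 0 1 ∩ pl P' m' '' Ioo 0 1 = X P P' '' (K P m P' m') := by
  ext z
  constructor
  · rintro ⟨⟨t, ht, rfl⟩, ⟨t', ht', he⟩⟩
    obtain ⟨k, hk, r, hr, h1, h2⟩ := pl_on P h.pos (Ioo_sub ht)
    obtain ⟨l, hl, r', hr', h1', h2'⟩ := pl_on P' h'.pos (Ioo_sub ht')
    have o1 : On (P k) (P (k + 1)) (pl P m t) := ⟨r, hr, h2⟩
    have o2 : On (P' l) (P' (l + 1)) (pl P m t) := ⟨r', hr', by rw [← he, h2']⟩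
    rcases hn k hk l hl with hc | hc | hc
    · exact absurd o2 (fun o2 => hc.false o1 o2)
    · exact ⟨(k, l), mem_K.mpr ⟨⟨hk, hl⟩, hc⟩, (cross_unique hc.1 o1 o2).symm⟩
    · exact absurd rfl (pl_avoid h (hW _ (hc.mem o1 o2)) ht)
  · rintro ⟨x, hx, rfl⟩
    have hx' := mem_K.mp hx
    obtain ⟨r, hr, e⟩ := X_left hx
    obtain ⟨r', hr', e'⟩ := X_right hx
    exact ⟨⟨_, mem_Ioo hx'.1.1 hr, by rw [pl_at P hx'.1.1 (Ioo_sub hr), e]⟩,
      ⟨_, mem_Ioo hx'.1.2 hr', by rw [pl_at P' hx'.1.2 (Ioo_sub hr'), e']⟩⟩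

lemma X_inj (h : Simple P m) (h' : Simple P' m') : InjOn (X P P') (K P m P' m') := by
  intro x hx y hy he
  have hx' := mem_K.mp hx
  have hy' := mem_K.mp hy
  obtain ⟨r, hr, e⟩ := X_left hx
  obtain ⟨r', hr', e'⟩ := X_right hx
  obtain ⟨s, hs, f⟩ := X_left hy
  obtain ⟨s', hs', f'⟩ := X_right hy
  have h1 := piece_inj h hx'.1.1 hy'.1.1 (Ioo_sub hr) (Ioo_sub hs) (by rw [← e, ← f, he])
  have h2 := piece_inj h' hx'.1.2 hy'.1.2 (Ioo_sub hr') (Ioo_sub hs') (by rw [← e', ← f', he])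
  have key : ∀ (a b : ℕ) (u v : ℝ), u ∈ Ioo (0 : ℝ) 1 → v ∈ Ioo (0 : ℝ) 1 →
      (a : ℝ) + u = b + v → a = b := by
    intro a b u v hu hv h
    have h1 : (a : ℝ) < b + 1 := by linarith [hu.1, hv.2]
    have h2 : (b : ℝ) < a + 1 := by linarith [hu.2, hv.1]
    have h1' : a < b + 1 := by exact_mod_cast h1
    have h2' : b < a + 1 := by exact_mod_cast h2
    omega
  exact Prod.ext (key _ _ _ _ hr hs h1) (key _ _ _ _ hr' hs' h2)

lemma crossing_card {W : Set ℂ} (h : Simple P m) (h' : Simple P' m')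
    (hn : Nice W P m P' m') (hW : ∀ w ∈ W, Avoid P m w) :
    (pl P m '' Ioo 0 1 ∩ pl P' m' '' Ioo 0 1).ncard = (K P m P' m').card := by
  rw [crossing_set h h' hn hW, (X_inj h h').ncard_image, ncard_coe_finset]

/-! ### Proper crossings -/

lemma div_helper {D N x : ℝ} (hD : D ≠ 0) (h : N = x * D) : N / D = x := by
  rw [h]; exact mul_div_cancel_right₀ x hD

/-- the affine homeomorphism with `z ↦ 0`, `z + p ↦ 1`, `z + q ↦ i`. -/
noncomputable def aff (z p q : ℂ) (h : p.re * q.im - p.im * q.re ≠ 0) : ℂ ≃ₜ ℂ where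
  toFun w := ⟨((w - z).re * q.im - (w - z).im * q.re) / (p.re * q.im - p.im * q.re),
    (p.re * (w - z).im - p.im * (w - z).re) / (p.re * q.im - p.im * q.re)⟩
  invFun u := z + (u.re : ℂ) * p + (u.im : ℂ) * q
  left_inv w := by
    apply Complex.ext
    · simp only [Complex.add_re, Complex.mul_re, Complex.ofReal_re, Complex.ofReal_im,
        Complex.sub_re, Complex.sub_im, zero_mul, sub_zero]
      have : ((w.re - z.re) * q.im - (w.im - z.im) * q.re) / (p.re * q.im - p.im * q.re) * p.re +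
          (p.re * (w.im - z.im) - p.im * (w.re - z.re)) / (p.re * q.im - p.im * q.re) * q.re =
          w.re - z.re := by
        rw [div_mul_eq_mul_div, div_mul_eq_mul_div, ← add_div]
        apply div_helper h; ring
      linarith
    · simp only [Complex.add_im, Complex.mul_im, Complex.ofReal_re, Complex.ofReal_im,
        Complex.sub_re, Complex.sub_im, zero_mul, add_zero]
      have : ((w.re - z.re) * q.im - (w.im - z.im) * q.re) / (p.re * q.im - p.im * q.re) * p.im +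
          (p.re * (w.im - z.im) - p.im * (w.re - z.re)) / (p.re * q.im - p.im * q.re) * q.im =
          w.im - z.im := by
        rw [div_mul_eq_mul_div, div_mul_eq_mul_div, ← add_div]
        apply div_helper h; ring
      linarith
  right_inv u := by
    apply Complex.ext
    · simp only [Complex.add_re, Complex.add_im, Complex.mul_re, Complex.mul_im,
        Complex.ofReal_re, Complex.ofReal_im, Complex.sub_re, Complex.sub_im, zero_mul, sub_zero,
        add_zero]
      apply div_helper h; ring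
    · simp only [Complex.add_re, Complex.add_im, Complex.mul_re, Complex.mul_im,
        Complex.ofReal_re, Complex.ofReal_im, Complex.sub_re, Complex.sub_im, zero_mul, sub_zero,
        add_zero]
      apply div_helper h; ring
  continuous_toFun := by
    have : (fun w : ℂ => (⟨((w - z).re * q.im - (w - z).im * q.re) /
        (p.re * q.im - p.im * q.re),
        (p.re * (w - z).im - p.im * (w - z).re) / (p.re * q.im - p.im * q.re)⟩ : ℂ)) =
        fun w : ℂ => ((((w - z).re * q.im - (w - z).im * q.re) /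
        (p.re * q.im - p.im * q.re) : ℝ) : ℂ) +
        (((p.re * (w - z).im - p.im * (w - z).re) / (p.re * q.im - p.im * q.re) : ℝ) : ℂ) *
          Complex.I := by
      funext w
      exact Complex.mk_eq_add_mul_I _ _
    rw [this]
    fun_prop
  continuous_invFun := by fun_prop

lemma On_closed (a b : ℂ) : IsClosed {z | On a b z} := by
  have : {z | On a b z} = (fun r : ℝ => a + (r : ℂ) * (b - a)) '' Icc 0 1 := by
    ext z
    constructor
    · rintro ⟨r, hr, rfl⟩; exact ⟨r, hr, rfl⟩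
    · rintro ⟨r, hr, rfl⟩; exact ⟨r, hr, rfl⟩
  rw [this]
  exact (isCompact_Icc.image (by fun_prop)).isClosed

lemma image_iff (h : Simple P m) (z : ℂ) :
    z ∈ pl P m '' Icc 0 1 ↔ ∃ k < m, On (P k) (P (k + 1)) z := by
  constructor
  · rintro ⟨t, ht, rfl⟩
    obtain ⟨k, hk, r, hr, -, h2⟩ := pl_on P h.pos ht
    exact ⟨k, hk, r, hr, h2⟩
  · rintro ⟨k, hk, r, hr, rfl⟩
    have hm : (0 : ℝ) < m := by exact_mod_cast h.pos
    have hk' : (k : ℝ) + 1 ≤ m := by exact_mod_cast hk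
    refine ⟨(k + r) / m, ⟨?_, ?_⟩, pl_at P hk hr⟩
    · apply div_nonneg _ hm.le
      have : (0 : ℝ) ≤ k := Nat.cast_nonneg _
      linarith [hr.1]
    · rw [div_le_one hm]; linarith [hr.2]

/-- near an interior point of a piece the image is the line. -/
lemma near (h : Simple P m) {k : ℕ} (hk : k < m) {s : ℝ} (hs : s ∈ Ioo (0 : ℝ) 1) {z : ℂ}
    (hz : z = P k + (s : ℂ) * (P (k + 1) - P k)) (α β : ℂ → ℝ) (q : ℂ) (hα : Continuous α)
    (hw : ∀ w, w = z + (α w : ℂ) * (P (k + 1) - P k) + (β w : ℂ) * q) (hαz : α z = 0)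
    (hβ : ∀ r : ℝ, β (z + (r : ℂ) * (P (k + 1) - P k)) = 0) :
    ∀ᶠ w in 𝓝 z, (w ∈ pl P m '' Icc 0 1 ↔ β w = 0) := by
  -- the other pieces
  have hother : IsClosed (⋃ l ∈ (Finset.range m).erase k, {w | On (P l) (P (l + 1)) w}) := by
    apply isClosed_biUnion_finset
    intro l _
    exact On_closed _ _
  have hzn : z ∉ ⋃ l ∈ (Finset.range m).erase k, {w | On (P l) (P (l + 1)) w} := by
    intro hmem
    simp only [mem_iUnion] at hmem
    obtain ⟨l, hl, r, hr, e⟩ := hmem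
    rw [Finset.mem_erase, Finset.mem_range] at hl
    have h1 := piece_inj h hk hl.2 (Ioo_sub hs) hr (by rw [← hz, ← e])
    have h2 : (l : ℝ) < k + 1 := by linarith [hr.1, hs.2]
    have h3 : (k : ℝ) < l + 1 := by linarith [hr.2, hs.1]
    have h2' : l < k + 1 := by exact_mod_cast h2
    have h3' : k < l + 1 := by exact_mod_cast h3
    exact hl.1 (by omega)
  have ev1 := hother.isOpen_compl.mem_nhds hzn
  have ev2 : ∀ᶠ w in 𝓝 z, s + α w ∈ Ioo (0 : ℝ) 1 := by
    have hc : Continuous fun w => s + α w := continuous_const.add hα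
    have : s + α z ∈ Ioo (0 : ℝ) 1 := by rw [hαz, add_zero]; exact hs
    exact hc.continuousAt.eventually_mem (isOpen_Ioo.mem_nhds this)
  filter_upwards [ev1, ev2] with w hw1 hw2
  rw [image_iff h]
  constructor
  · rintro ⟨l, hl, hon⟩
    have hlk : l = k := by
      by_contra hne
      apply hw1
      simp only [mem_iUnion]
      exact ⟨l, Finset.mem_erase.mpr ⟨hne, Finset.mem_range.mpr hl⟩, hon⟩
    subst hlk
    obtain ⟨r, -, e⟩ := hon
    have : w = z + ((r - s : ℝ) : ℂ) * (P (l + 1) - P l) := by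
      rw [e, hz]; push_cast; ring
    rw [this]; exact hβ _
  · intro hb
    refine ⟨k, hk, s + α w, Ioo_sub hw2, ?_⟩
    calc w = z + (α w : ℂ) * (P (k + 1) - P k) + (β w : ℂ) * q := hw w
      _ = P k + ((s + α w : ℝ) : ℂ) * (P (k + 1) - P k) := by
        rw [hb, hz]; push_cast; ring

lemma proper_left (z p q : ℂ) (h : p.re * q.im - p.im * q.re ≠ 0) (w : ℂ) :
    w = z + ((aff z p q h w).re : ℂ) * p + ((aff z p q h w).im : ℂ) * q :=
  ((aff z p q h).left_inv w).symm

/-- **Crossings of polygonal curves in general position are proper.** -/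
lemma proper_crossing {W : Set ℂ} (h : Simple P m) (h' : Simple P' m')
    (hn : Nice W P m P' m') (hW : ∀ w ∈ W, Avoid P m w) {z : ℂ}
    (hz : z ∈ pl P m '' Ioo 0 1 ∩ pl P' m' '' Ioo 0 1) :
    ProperCrossing (pl P m '' Icc 0 1) (pl P' m' '' Icc 0 1) z := by
  rw [crossing_set h h' hn hW] at hz
  obtain ⟨x, hx, hxz⟩ := hz
  have hx' := mem_K.mp hx
  obtain ⟨r, hr, e⟩ := X_left hx
  obtain ⟨r', hr', e'⟩ := X_right hx
  rw [hxz] at e e'
  set p := P (x.1 + 1) - P x.1 with hp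
  set q := P' (x.2 + 1) - P' x.2 with hq
  have hΔ : p.re * q.im - p.im * q.re ≠ 0 := by
    have h1 : p.re * q.im - p.im * q.re = ori (P x.1) (P (x.1 + 1)) (P' (x.2 + 1)) -
        ori (P x.1) (P (x.1 + 1)) (P' x.2) := by
      simp only [hp, hq, ori, Complex.sub_re, Complex.sub_im]; ring
    rw [h1]
    intro h0
    have h2 := hx'.2.1
    have h3 : ori (P x.1) (P (x.1 + 1)) (P' (x.2 + 1)) = ori (P x.1) (P (x.1 + 1)) (P' x.2) := by
      linarith
    rw [h3] at h2
    nlinarith [mul_self_nonneg (ori (P x.1) (P (x.1 + 1)) (P' x.2))]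
  refine ⟨aff z p q hΔ, ?_, ?_⟩
  · apply Complex.ext <;> simp [aff]
  · have c : Continuous (aff z p q hΔ) := (aff z p q hΔ).continuous
    have n1 := near h hx'.1.1 hr e (fun w => (aff z p q hΔ w).re) (fun w => (aff z p q hΔ w).im) q
      (Complex.continuous_re.comp c) (proper_left z p q hΔ) (by simp [aff]) (by
        intro r
        change (p.re * ((z + (r : ℂ) * p) - z).im - p.im * ((z + (r : ℂ) * p) - z).re) /
          (p.re * q.im - p.im * q.re) = 0
        simp only [Complex.add_re, Complex.mul_re, Complex.ofReal_re, Complex.ofReal_im,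
          Complex.sub_re, Complex.sub_im, Complex.add_im, Complex.mul_im, zero_mul, sub_zero,
          add_zero]
        rw [div_eq_zero_iff]; left; ring)
    have n2 := near h' hx'.1.2 hr' e' (fun w => (aff z p q hΔ w).im)
      (fun w => (aff z p q hΔ w).re) p
      (Complex.continuous_im.comp c) (fun w => by
        have := proper_left z p q hΔ w
        linear_combination this) (by simp [aff]) (by
        intro r
        change (((z + (r : ℂ) * q) - z).re * q.im - ((z + (r : ℂ) * q) - z).im * q.re) /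
          (p.re * q.im - p.im * q.re) = 0
        simp only [Complex.add_re, Complex.mul_re, Complex.ofReal_re, Complex.ofReal_im,
          Complex.sub_re, Complex.sub_im, Complex.add_im, Complex.mul_im, zero_mul, sub_zero,
          add_zero]
        rw [div_eq_zero_iff]; left; ring)
    filter_upwards [n1, n2] with w h1 h2
    exact ⟨h1, h2⟩

end Pool.Agent.H235R2.Poly
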