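import Pool.Agent.H235R2.Poly2

set_option autoImplicit false

namespace Pool.Agent.H235R2.Poly

open Set Topology Pool.Agent.H235R2.Turn Pool.Agent.H235R2.Sefe

/-- integer points -/
abbrev Pt := ℤ × ℤ

noncomputable def toC (p : Pt) : ℂ := ⟨(p.1 : ℝ), (p.2 : ℝ)⟩

lemma toC_inj : Function.Injective toC := by
  intro p q h
  have h1 := congrArg Complex.re h
  have h2 := congrArg Complex.im h
  simp only [toC] at h1 h2
  exact Prod.ext (by exact_mod_cast h1) (by exact_mod_cast h2)

def o (a b c : Pt) : ℤ := (b.1 - a.1) * (c.2 - a.2) - (b.2 - a.2) * (c.1 - a.1)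

lemma ori_toC (a b c : Pt) : ori (toC a) (toC b) (toC c) = (o a b c : ℝ) := by
  simp only [ori, toC, o]; push_cast; ring

def sepB (a b c d : Pt) : Bool := decide (0 < o a b c * o a b d) || decide (0 < o c d a * o c d b)
def crsB (a b c d : Pt) : Bool := decide (o a b c * o a b d < 0) && decide (o c d a * o c d b < 0)

lemma sepB_iff {a b c d : Pt} : sepB a b c d = true ↔ Sep (toC a) (toC b) (toC c) (toC d) := by
  simp only [sepB, Sep, ori_toC, Bool.or_eq_true, decide_eq_true_eq]
  constructor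
  · rintro (h | h)
    · left; exact_mod_cast h
    · right; exact_mod_cast h
  · rintro (h | h)
    · left; exact_mod_cast h
    · right; exact_mod_cast h

lemma crsB_iff {a b c d : Pt} : crsB a b c d = true ↔ Crs (toC a) (toC b) (toC c) (toC d) := by
  simp only [crsB, Crs, ori_toC, Bool.and_eq_true, decide_eq_true_eq]
  constructor
  · rintro ⟨h, h'⟩
    exact ⟨by exact_mod_cast h, by exact_mod_cast h'⟩
  · rintro ⟨h, h'⟩
    exact ⟨by exact_mod_cast h, by exact_mod_cast h'⟩

/-- Polygonal drawing data: positions of `n` vertices, end vertices and point lists of `N`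
edges. -/
structure Data (n N : ℕ) where
  pos : Fin n → Pt
  fst : Fin N → Fin n
  snd : Fin N → Fin n
  pts : Fin N → List Pt

variable {n N : ℕ}

def Data.p (D : Data n N) (e : Fin N) (k : ℕ) : Pt := (D.pts e).getD k (0, 0)
def Data.m (D : Data n N) (e : Fin N) : ℕ := (D.pts e).length - 1

def touchB (D : Data n N) (a b c d : Pt) : Bool :=
  (decide (a = c) && decide (o a b d ≠ 0) && (List.finRange n).any fun w => decide (D.pos w = a)) ||
  (decide (a = d) && decide (o a b c ≠ 0) && (List.finRange n).any fun w => decide (D.pos w = a)) ||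
  (decide (b = c) && decide (o b a d ≠ 0) && (List.finRange n).any fun w => decide (D.pos w = b)) ||
  (decide (b = d) && decide (o b a c ≠ 0) && (List.finRange n).any fun w => decide (D.pos w = b))

/-- all vertex positions in the plane -/
def Data.W (D : Data n N) : Set ℂ := Set.range fun w => toC (D.pos w)

lemma ori_ne {a b c : Pt} (h : o a b c ≠ 0) : ori (toC a) (toC b) (toC c) ≠ 0 := by
  rw [ori_toC]; exact_mod_cast h

lemma touchB_imp (D : Data n N) {a b c d : Pt} (h : touchB D a b c d = true) :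
    Touch D.W (toC a) (toC b) (toC c) (toC d) := by
  simp only [touchB, Bool.or_eq_true, Bool.and_eq_true, decide_eq_true_eq, List.any_eq_true] at h
  rcases h with ((⟨⟨h1, h2⟩, w, -, h3⟩ | ⟨⟨h1, h2⟩, w, -, h3⟩) | ⟨⟨h1, h2⟩, w, -, h3⟩) |
    ⟨⟨h1, h2⟩, w, -, h3⟩
  · exact Or.inl ⟨by rw [h1], ori_ne h2, ⟨w, by simp only [h3]⟩⟩
  · exact Or.inr (Or.inl ⟨by rw [h1], ori_ne h2, ⟨w, by simp only [h3]⟩⟩)
  · exact Or.inr (Or.inr (Or.inl ⟨by rw [h1], ori_ne h2, ⟨w, by simp only [h3]⟩⟩))
  · exact Or.inr (Or.inr (Or.inr ⟨by rw [h1], ori_ne h2, ⟨w, by simp only [h3]⟩⟩))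

/-- single-edge checks -/
def Data.ok1 (D : Data n N) (e : Fin N) : Bool :=
  decide (0 < D.m e) && decide (D.p e 0 = D.pos (D.fst e)) &&
  decide (D.p e (D.m e) = D.pos (D.snd e)) &&
  ((List.range (D.m e)).all fun k => decide (D.p e k ≠ D.p e (k + 1)) &&
    (decide (k + 1 = D.m e) || decide (o (D.p e k) (D.p e (k + 1)) (D.p e (k + 2)) ≠ 0)) &&
    ((List.range (D.m e)).all fun l => decide (l ≤ k + 1) ||
      sepB (D.p e k) (D.p e (k + 1)) (D.p e l) (D.p e (l + 1))) &&
    ((List.finRange n).all fun w =>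
      (decide (D.p e k ≠ D.pos w) || decide (k = 0)) &&
      (decide (D.p e (k + 1) ≠ D.pos w) || decide (k + 1 = D.m e)) &&
      (decide (D.p e k = D.pos w) || decide (D.p e (k + 1) = D.pos w) ||
        decide (o (D.p e k) (D.p e (k + 1)) (D.pos w) ≠ 0))))

/-- two-edge check -/
def Data.ok2 (D : Data n N) (e f : Fin N) : Bool :=
  (List.range (D.m e)).all fun k => (List.range (D.m f)).all fun l =>
    sepB (D.p e k) (D.p e (k + 1)) (D.p f l) (D.p f (l + 1)) ||
    (crsB (D.p e k) (D.p e (k + 1)) (D.p f l) (D.p f (l + 1)) ||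
    touchB D (D.p e k) (D.p e (k + 1)) (D.p f l) (D.p f (l + 1)))

/-- number of crossings -/
def Data.cnt (D : Data n N) (e f : Fin N) : ℕ :=
  ((List.range (D.m e)).map fun k => ((List.range (D.m f)).countP fun l =>
    crsB (D.p e k) (D.p e (k + 1)) (D.p f l) (D.p f (l + 1)))).sum

noncomputable def Data.P (D : Data n N) (e : Fin N) (k : ℕ) : ℂ := toC (D.p e k)

structure Data.Ok (D : Data n N) : Prop where
  inj : Function.Injective D.pos
  edges : ∀ e f, s(D.fst e, D.snd e) = s(D.fst f, D.snd f) → e = f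
  ok1 : ∀ e, D.ok1 e = true
  ok2 : ∀ e f, e ≠ f → D.ok2 e f = true

lemma ok1_simple {D : Data n N} {e : Fin N} (h : D.ok1 e = true) : Simple (D.P e) (D.m e) := by
  simp only [Data.ok1, Bool.and_eq_true, decide_eq_true_eq, List.all_eq_true, Bool.or_eq_true,
    List.mem_range] at h
  obtain ⟨⟨⟨h1, h2⟩, h3⟩, h4⟩ := h
  refine ⟨h1, ?_, ?_, ?_⟩
  · intro k hk he
    exact (h4 k hk).1.1.1 (toC_inj he)
  · intro k hk
    rcases (h4 k (by omega)).1.1.2 with h | h
    · omega
    · exact ori_ne h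
  · intro k l hkl hl
    rcases (h4 k (by omega)).1.2 l hl with h | h
    · omega
    · exact sepB_iff.mp h

lemma ok1_avoid {D : Data n N} {e : Fin N} (h : D.ok1 e = true) :
    ∀ w ∈ D.W, Avoid (D.P e) (D.m e) w := by
  simp only [Data.ok1, Bool.and_eq_true, decide_eq_true_eq, List.all_eq_true, Bool.or_eq_true,
    List.mem_range] at h
  obtain ⟨-, h4⟩ := h
  rintro _ ⟨w, rfl⟩
  have hw : w ∈ List.finRange n := List.mem_finRange w
  refine ⟨?_, ?_, ?_⟩
  · intro k hk he
    rcases ((h4 k hk).2 w hw).1.1 with h | h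
    · exact absurd (toC_inj he) h
    · exact h
  · intro k hk he
    rcases ((h4 k hk).2 w hw).1.2 with h | h
    · exact absurd (toC_inj he) h
    · exact h
  · intro k hk h1 h2
    rcases ((h4 k hk).2 w hw).2 with (h | h) | h
    · exact absurd (congrArg toC h) h1
    · exact absurd (congrArg toC h) h2
    · exact ori_ne h

lemma ok2_nice {D : Data n N} {e f : Fin N} (h : D.ok2 e f = true) :
    Nice D.W (D.P e) (D.m e) (D.P f) (D.m f) := by
  simp only [Data.ok2, List.all_eq_true, Bool.or_eq_true, List.mem_range] at h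
  intro k hk l hl
  rcases h k hk l hl with h | h | h
  · exact Or.inl (sepB_iff.mp h)
  · exact Or.inr (Or.inl (crsB_iff.mp h))
  · exact Or.inr (Or.inr (touchB_imp D h))

lemma card_K (D : Data n N) (e f : Fin N) :
    (K (D.P e) (D.m e) (D.P f) (D.m f)).card = D.cnt e f := by
  classical
  have h1 : K (D.P e) (D.m e) (D.P f) (D.m f) =
      (Finset.range (D.m e) ×ˢ Finset.range (D.m f)).filter fun x =>
        crsB (D.p e x.1) (D.p e (x.1 + 1)) (D.p f x.2) (D.p f (x.2 + 1)) = true := by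
    ext x
    rw [mem_K, Finset.mem_filter, Finset.mem_product, Finset.mem_range, Finset.mem_range,
      crsB_iff]
    rfl
  rw [h1, Finset.card_filter, Finset.sum_product, Data.cnt]
  rw [← List.sum_toFinset _ List.nodup_range, List.toFinset_range]
  apply Finset.sum_congr rfl
  intro k _
  rw [← Finset.card_filter, List.countP_eq_length_filter]
  rw [← List.toFinset_card_of_nodup (List.nodup_range.filter _)]
  congr 1
  ext l
  simp

/-- the underlying graph -/
def Data.graph (D : Data n N) : Set (Sym2 (Fin n)) := Set.range fun e => s(D.fst e, D.snd e)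

open Classical in
/-- the arc of an edge -/
noncomputable def Data.arc (D : Data n N) (x : Sym2 (Fin n)) : ℝ → ℂ :=
  if h : ∃ e, s(D.fst e, D.snd e) = x then pl (D.P h.choose) (D.m h.choose) else fun _ => 0

lemma Data.Ok.arc_eq {D : Data n N} (h : D.Ok) (e : Fin N) :
    D.arc s(D.fst e, D.snd e) = pl (D.P e) (D.m e) := by
  unfold Data.arc
  have hex : ∃ f, s(D.fst f, D.snd f) = s(D.fst e, D.snd e) := ⟨e, rfl⟩
  rw [dif_pos hex, h.edges _ _ hex.choose_spec]

/-- The drawing given by the data. -/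
noncomputable def Data.Ok.drawing {D : Data n N} (h : D.Ok) (G : SimpleGraph (Fin n))
    (hG : ∀ x ∈ G.edgeSet, ∃ e, x = s(D.fst e, D.snd e)) : Drawing G where
  pos w := toC (D.pos w)
  pos_injective := toC_inj.comp h.inj
  arc := D.arc
  arc_continuousOn := by
    intro x hx
    obtain ⟨e, rfl⟩ := hG x hx
    rw [h.arc_eq]
    exact (pl_cont _ _).continuousOn
  arc_injOn := by
    intro x hx
    obtain ⟨e, rfl⟩ := hG x hx
    rw [h.arc_eq]
    exact pl_inj (ok1_simple (h.ok1 e))
  arc_ends := by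
    intro u v huv
    obtain ⟨e, he⟩ := hG s(u, v) huv
    rw [he, h.arc_eq]
    have hs := ok1_simple (h.ok1 e)
    have h1 := h.ok1 e
    simp only [Data.ok1, Bool.and_eq_true, decide_eq_true_eq] at h1
    have e0 : pl (D.P e) (D.m e) 0 = toC (D.pos (D.fst e)) := by
      rw [pl_zero _ hs.pos, Data.P, h1.1.1.2]
    have e1 : pl (D.P e) (D.m e) 1 = toC (D.pos (D.snd e)) := by
      rw [pl_one _ hs.pos, Data.P, h1.1.2]
    rw [e0, e1]
    rw [Sym2.eq_iff] at he
    rcases he with ⟨rfl, rfl⟩ | ⟨rfl, rfl⟩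
    · exact Or.inl ⟨rfl, rfl⟩
    · exact Or.inr ⟨rfl, rfl⟩
  arc_avoids := by
    intro x hx t ht w
    obtain ⟨e, rfl⟩ := hG x hx
    rw [h.arc_eq]
    exact pl_avoid (ok1_simple (h.ok1 e)) (ok1_avoid (h.ok1 e) _ ⟨w, rfl⟩) ht
  finite_inter := by
    intro x hx y hy hxy
    obtain ⟨e, rfl⟩ := hG x hx
    obtain ⟨f, rfl⟩ := hG y hy
    have hef : e ≠ f := by rintro rfl; exact hxy rfl
    rw [h.arc_eq, h.arc_eq]
    have hse := ok1_simple (h.ok1 e)
    have hsf := ok1_simple (h.ok1 f)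
    have hc := crossing_set hse hsf (ok2_nice (h.ok2 e f hef)) (ok1_avoid (h.ok1 e))
    have fin1 : (pl (D.P e) (D.m e) '' Ioo 0 1 ∩ pl (D.P f) (D.m f) '' Ioo 0 1).Finite := by
      rw [hc]; exact (Finset.finite_toSet _).image _
    refine (fin1.union ((Set.finite_singleton (pl (D.P e) (D.m e) 0)).union
      ((Set.finite_singleton (pl (D.P e) (D.m e) 1)).union
      ((Set.finite_singleton (pl (D.P f) (D.m f) 0)).union
      (Set.finite_singleton (pl (D.P f) (D.m f) 1)))))).subset ?_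
    rintro z ⟨⟨t, ht, rfl⟩, ⟨t', ht', he⟩⟩
    rcases eq_or_lt_of_le ht.1 with h0 | h0
    · right; left; rw [← h0]; rfl
    rcases eq_or_lt_of_le ht.2 with h1 | h1
    · right; right; left; rw [h1]; rfl
    rcases eq_or_lt_of_le ht'.1 with h0' | h0'
    · right; right; right; left; rw [← he, ← h0']; rfl
    rcases eq_or_lt_of_le ht'.2 with h1' | h1'
    · right; right; right; right; rw [← he, h1']; rfl
    left
    exact ⟨⟨t, ⟨h0, h1⟩, rfl⟩, ⟨t', ⟨h0', h1'⟩, he⟩⟩
  proper := by
    intro x hx y hy hxy z hz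
    obtain ⟨e, rfl⟩ := hG x hx
    obtain ⟨f, rfl⟩ := hG y hy
    have hef : e ≠ f := by rintro rfl; exact hxy rfl
    rw [h.arc_eq, h.arc_eq] at hz ⊢
    exact proper_crossing (ok1_simple (h.ok1 e)) (ok1_simple (h.ok1 f)) (ok2_nice (h.ok2 e f hef))
      (ok1_avoid (h.ok1 e)) hz

lemma Data.Ok.crossings_eq {D : Data n N} (h : D.Ok) (G : SimpleGraph (Fin n))
    (hG : ∀ x ∈ G.edgeSet, ∃ e, x = s(D.fst e, D.snd e)) {e f : Fin N} (hef : e ≠ f) :
    ((h.drawing G hG).crossings s(D.fst e, D.snd e) s(D.fst f, D.snd f)).ncard = D.cnt e f := by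
  rw [← card_K]
  unfold Drawing.crossings
  change (D.arc _ '' _ ∩ D.arc _ '' _).ncard = _
  rw [h.arc_eq, h.arc_eq]
  exact crossing_card (ok1_simple (h.ok1 e)) (ok1_simple (h.ok1 f)) (ok2_nice (h.ok2 e f hef))
      (ok1_avoid (h.ok1 e))

end Pool.Agent.H235R2.Poly
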