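import Pool.Agent.H235R2.PolyDraw
import Pool.Agent.H235R2.NoSefe2

set_option autoImplicit false

namespace Pool.Agent.H235R2.Final

open Set Topology Pool.Agent.H235R2.Sefe Pool.Agent.H235R2.Poly Pool.Agent.H235R2.NoSefe

def posL : List Pt := [(0, 1000), (-866, -500), (866, -500), (-98, 710), (-664, -270), (-566, -440), (566, -440), (664, -270), (98, 710), (-265, 575), (-631, -58), (-366, -517), (366, -517), (631, -58), (265, 575), (-415, 431), (-581, 144), (-166, -575), (166, -575), (581, 144), (415, 431)]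
def fstL : List ℕ := [0, 1, 1, 2, 2, 0, 0, 1, 1, 2, 2, 0, 0, 1, 1, 2, 2, 0, 3, 5, 7, 9, 11, 13, 15, 17, 19, 4, 6, 8, 10, 12, 14, 16, 18, 20]
def sndL : List ℕ := [3, 4, 5, 6, 7, 8, 9, 10, 11, 12, 13, 14, 15, 16, 17, 18, 19, 20, 4, 6, 8, 10, 12, 14, 16, 18, 20, 5, 7, 9, 11, 13, 15, 17, 19, 3]
def ptsL : List (List Pt) := [
  [(0, 1000), (-642, 458), (-267, 254), (-364, 647), (-98, 710)],
  [(-866, -500), (-664, -270)],
  [(-866, -500), (-67, -814), (-89, -337), (-362, -641), (-566, -440)],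
  [(866, -500), (566, -440)],
  [(866, -500), (664, 339), (342, 113), (736, 10), (664, -270)],
  [(0, 1000), (98, 710)],
  [(0, 1000), (-265, 575)],
  [(-866, -500), (-631, -58)],
  [(-866, -500), (-366, -517)],
  [(866, -500), (366, -517)],
  [(866, -500), (631, -58)],
  [(0, 1000), (265, 575)],
  [(0, 1000), (-415, 431)],
  [(-866, -500), (-469, -270), (-843, -48), (-581, 144)],
  [(-866, -500), (-166, -575)],
  [(866, -500), (395, -229), (530, -659), (166, -575)],
  [(866, -500), (581, 144)],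
  [(0, 1000), (-1, 473), (309, 753), (415, 431)],
  [(-98, 710), (-812, -60), (-509, 92), (-664, -270)],
  [(-566, -440), (300, -637), (327, -351), (566, -440)],
  [(664, -270), (374, 669), (300, 491), (98, 710)],
  [(-265, 575), (-631, -58)],
  [(-366, -517), (366, -517)],
  [(631, -58), (265, 575)],
  [(-415, 431), (-212, 498), (-137, 866), (118, 535), (-581, 144)],
  [(-166, -575), (-332, -411), (-778, -663), (-548, -222), (166, -575)],
  [(581, 144), (546, -75), (834, -311), (436, -370), (415, 431)],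
  [(-664, -270), (-499, -52), (-768, 216), (-417, 342), (-566, -440)],
  [(566, -440), (298, -415), (201, -824), (-49, -360), (664, -270)],
  [(98, 710), (190, 585), (613, 356), (-265, 575)],
  [(-631, -58), (-366, -517)],
  [(366, -517), (631, -58)],
  [(265, 575), (-139, 781), (-171, 561), (-415, 431)],
  [(-581, 144), (-618, -685), (-474, -412), (-166, -575)],
  [(166, -575), (764, -264), (489, -98), (581, 144)],
  [(415, 431), (-98, 710)]]

def dat : Data 21 36 where
  pos w := posL.getD w.val (0, 0)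
  fst e := Fin.ofNat 21 (fstL.getD e.val 0)
  snd e := Fin.ofNat 21 (sndL.getD e.val 0)
  pts e := ptsL.getD e.val []

lemma c_inj : Function.Injective dat.pos := by
  have : ∀ a b : Fin 21, dat.pos a = dat.pos b → a = b := by decide +kernel
  exact fun a b => this a b

lemma c_ok1 : ∀ e, dat.ok1 e = true := by decide +kernel
lemma c_ok2 : ∀ e f, e ≠ f → dat.ok2 e f = true := by decide +kernel

lemma c_edges : ∀ e f, s(dat.fst e, dat.snd e) = s(dat.fst f, dat.snd f) → e = f := by
  have : ∀ e f : Fin 36, (dat.fst e = dat.fst f ∧ dat.snd e = dat.snd f) ∨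
      (dat.fst e = dat.snd f ∧ dat.snd e = dat.fst f) → e = f := by decide +kernel
  intro e f h
  exact this e f (Sym2.eq_iff.mp h)

lemma ok : dat.Ok := ⟨c_inj, c_edges, c_ok1, c_ok2⟩

/-- both edges in one of the graphs, independent, crossing oddly -/
def badPair (e f : Fin 36) : Bool :=
  ((decide (G1.Adj (dat.fst e) (dat.snd e)) && decide (G1.Adj (dat.fst f) (dat.snd f))) ||
   (decide (G2.Adj (dat.fst e) (dat.snd e)) && decide (G2.Adj (dat.fst f) (dat.snd f)))) &&
  decide (dat.fst e ≠ dat.fst f ∧ dat.fst e ≠ dat.snd f ∧ dat.snd e ≠ dat.fst f ∧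
    dat.snd e ≠ dat.snd f) && decide (dat.cnt e f % 2 = 1)

lemma c_par : ∀ e f, badPair e f = false := by decide +kernel

lemma c_cover : ∀ a b : Fin 21, (G1 ⊔ G2).Adj a b → ∃ e : Fin 36,
    (dat.fst e = a ∧ dat.snd e = b) ∨ (dat.fst e = b ∧ dat.snd e = a) := by
  have : ∀ a b : Fin 21, (G1.Adj a b ∨ G2.Adj a b) → ∃ e : Fin 36,
    (dat.fst e = a ∧ dat.snd e = b) ∨ (dat.fst e = b ∧ dat.snd e = a) := by decide +kernel
  intro a b h
  exact this a b (by simpa using h)

lemma cover : ∀ x ∈ (G1 ⊔ G2).edgeSet, ∃ e, x = s(dat.fst e, dat.snd e) := by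
  intro x hx
  induction x with
  | h a b =>
    obtain ⟨e, h | h⟩ := c_cover a b hx
    · exact ⟨e, by rw [h.1, h.2]⟩
    · exact ⟨e, by rw [h.1, h.2, Sym2.eq_swap]⟩

/-- the drawing -/
noncomputable def D : Drawing (G1 ⊔ G2) := ok.drawing (G1 ⊔ G2) cover

lemma indep_of {e f : Fin 36} (h : Independent s(dat.fst e, dat.snd e) s(dat.fst f, dat.snd f)) :
    dat.fst e ≠ dat.fst f ∧ dat.fst e ≠ dat.snd f ∧ dat.snd e ≠ dat.fst f ∧
    dat.snd e ≠ dat.snd f := by
  refine ⟨?_, ?_, ?_, ?_⟩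
  · intro he
    exact h (dat.fst e) ⟨Sym2.mem_mk_left _ _, he ▸ Sym2.mem_mk_left _ _⟩
  · intro he
    exact h (dat.fst e) ⟨Sym2.mem_mk_left _ _, he ▸ Sym2.mem_mk_right _ _⟩
  · intro he
    exact h (dat.snd e) ⟨Sym2.mem_mk_right _ _, he ▸ Sym2.mem_mk_left _ _⟩
  · intro he
    exact h (dat.snd e) ⟨Sym2.mem_mk_right _ _, he ▸ Sym2.mem_mk_right _ _⟩

lemma iocr_zero (H : SimpleGraph (Fin 21)) (hH : H ≤ G1 ⊔ G2) (h12 : H = G1 ∨ H = G2) :
    (D.sub hH).iocr = 0 := by
  unfold Drawing.iocr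
  rw [Set.ncard_eq_zero (Set.toFinite _), Set.eq_empty_iff_forall_notMem]
  rintro _ ⟨x, hx, y, hy, rfl, hind, hodd⟩
  obtain ⟨e, rfl⟩ := cover x (SimpleGraph.edgeSet_mono hH hx)
  obtain ⟨f, rfl⟩ := cover y (SimpleGraph.edgeSet_mono hH hy)
  have hne := indep_of hind
  have hef : e ≠ f := by rintro rfl; exact hne.1 rfl
  have hcr : ((D.sub hH).crossings s(dat.fst e, dat.snd e) s(dat.fst f, dat.snd f)).ncard =
      dat.cnt e f := ok.crossings_eq (G1 ⊔ G2) cover hef
  rw [hcr] at hodd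
  have hb := c_par e f
  have : badPair e f = true := by
    unfold badPair
    rw [Bool.and_eq_true, Bool.and_eq_true, Bool.or_eq_true, Bool.and_eq_true, Bool.and_eq_true]
    refine ⟨⟨?_, decide_eq_true hne⟩, decide_eq_true (Nat.odd_iff.mp hodd)⟩
    rcases h12 with rfl | rfl
    · exact Or.inl ⟨decide_eq_true hx, decide_eq_true hy⟩
    · exact Or.inr ⟨decide_eq_true hx, decide_eq_true hy⟩
  rw [this] at hb
  exact Bool.noConfusion hb

theorem siocr_zero : D.siocr = 0 := by
  unfold Drawing.siocr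
  rw [iocr_zero G1 _ (Or.inl rfl), iocr_zero G2 _ (Or.inr rfl)]

end Pool.Agent.H235R2.Final
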