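import Mathlib
import Pool.Agent.Helper770.VanKampen

set_option autoImplicit false

namespace Pool.Agent.H235R2.Turn

open Complex Set Pool.Agent.Helper770.VanKampen

/-- Projection of the line to `[0,1]`. -/
noncomputable def cl (t : ℝ) : ℝ := max 0 (min 1 t)

lemma cl_cont : Continuous cl := by unfold cl; fun_prop
lemma cl_nonneg (t : ℝ) : 0 ≤ cl t := le_max_left _ _
lemma cl_le (t : ℝ) : cl t ≤ 1 := max_le (by norm_num) (min_le_left _ _)
lemma cl_mem (t : ℝ) : cl t ∈ Icc (0 : ℝ) 1 := ⟨cl_nonneg t, cl_le t⟩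
lemma cl_of_nonpos {t : ℝ} (h : t ≤ 0) : cl t = 0 := by
  unfold cl; rw [min_eq_right (by linarith), max_eq_left h]
lemma cl_of_one_le {t : ℝ} (h : 1 ≤ t) : cl t = 1 := by
  unfold cl; rw [min_eq_left h, max_eq_right (by norm_num)]
lemma cl_of_mem {t : ℝ} (h : t ∈ Icc (0 : ℝ) 1) : cl t = t := by
  unfold cl; rw [min_eq_right h.2, max_eq_right h.1]
lemma cl_cl (t : ℝ) : cl (cl t) = cl t := cl_of_mem (cl_mem t)
@[simp] lemma cl_zero : cl 0 = 0 := cl_of_nonpos le_rfl
@[simp] lemma cl_one : cl 1 = 1 := cl_of_one_le le_rfl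

lemma cl_eq_zero_iff {t : ℝ} : cl t = 0 ↔ t ≤ 0 := by
  constructor
  · intro h
    by_contra hlt
    push Not at hlt
    have : 0 < cl t := lt_max_of_lt_right (lt_min (by norm_num) hlt)
    linarith
  · exact cl_of_nonpos

lemma cl_eq_one_iff {t : ℝ} : cl t = 1 ↔ 1 ≤ t := by
  constructor
  · intro h
    by_contra hlt
    push Not at hlt
    have : cl t < 1 := max_lt (by norm_num) (lt_of_le_of_lt (min_le_right _ _) hlt)
    linarith
  · exact cl_of_one_le

/-- A curve parametrised by `[0,1]`, extended to the line by constants. -/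
structure Curve (u : ℝ → ℂ) : Prop where
  cont : Continuous u
  clamp : ∀ t, u t = u (cl t)

lemma curve_of {u : ℝ → ℂ} (hu : ContinuousOn u (Icc 0 1)) : Curve (fun t => u (cl t)) := by
  refine ⟨?_, fun t => by simp only [cl_cl]⟩
  exact hu.comp_continuous cl_cont cl_mem

/-- Curves `p`, `q` that meet only at ends of both. -/
def Ends (p q : ℝ → ℂ) : Prop :=
  ∀ s ∈ Icc (0 : ℝ) 1, ∀ t ∈ Icc (0 : ℝ) 1, p s = q t → (s = 0 ∨ s = 1) ∧ (t = 0 ∨ t = 1)

/-- a continuous logarithm of `p s - q t` where it does not vanish. -/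
structure Log2 (p q : ℝ → ℂ) (L : ℝ × ℝ → ℂ) : Prop where
  cont : ContinuousOn L {x | p x.1 ≠ q x.2}
  exp : ∀ x : ℝ × ℝ, p x.1 ≠ q x.2 → Complex.exp (L x) = p x.1 - q x.2

theorem exists_log2' {p q : ℝ → ℂ} (hp : Curve p) (hq : Curve q) (h : Ends p q) :
    ∃ L, Log2 p q L := by
  set U : Set (ℝ × ℝ) := {x | p x.1 ≠ q x.2} with hU
  have hopen : IsOpen U := isOpen_ne_fun (hp.cont.comp continuous_fst) (hq.cont.comp continuous_snd)
  have hmid : ((1/2 : ℝ), (1/2 : ℝ)) ∈ U := by
    intro he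
    have := h (1/2) (by norm_num) (1/2) (by norm_num) he
    rcases this.1 with h1 | h1 <;> norm_num at h1
  have hstar : StarConvex ℝ ((1/2 : ℝ), (1/2 : ℝ)) U := by
    intro x hx a b ha hb hab hy
    apply hx
    -- x1 clamps like y1
    have key : ∀ s y : ℝ, y = a * (1/2) + b * s → (cl y = 0 ∨ cl y = 1) → cl s = cl y := by
      intro s y hy h01
      have hb0 : b ≠ 0 := by
        intro hb0
        have ha1 : a = 1 := by linarith
        rw [hb0, ha1] at hy
        have : y = 1/2 := by linarith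
        rw [this, cl_of_mem (by norm_num)] at h01
        norm_num at h01
      have hbpos : 0 < b := lt_of_le_of_ne hb (Ne.symm hb0)
      rcases h01 with h0 | h1
      · rw [h0]
        rw [cl_eq_zero_iff] at h0 ⊢
        by_contra hs
        push Not at hs
        have := mul_pos hbpos hs
        linarith
      · rw [h1]
        rw [cl_eq_one_iff] at h1 ⊢
        by_contra hs
        push Not at hs
        have := mul_lt_mul_of_pos_left hs hbpos
        linarith
    have hy' : p (a * (1/2) + b * x.1) = q (a * (1/2) + b * x.2) := by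
      simpa [Prod.fst_add, Prod.snd_add] using hy
    have h2 : p (cl (a * (1/2) + b * x.1)) = q (cl (a * (1/2) + b * x.2)) := by
      rw [← hp.clamp, ← hq.clamp]; exact hy'
    obtain ⟨e1, e2⟩ := h _ (cl_mem _) _ (cl_mem _) h2
    rw [hp.clamp x.1, hq.clamp x.2, key x.1 _ rfl e1, key x.2 _ rfl e2]
    exact h2
  have hsc : IsSimplyConnected U := by
    have := hstar.contractibleSpace ⟨_, hmid⟩
    exact SimplyConnectedSpace.ofContractible _
  have hF : Continuous (fun x : ℝ × ℝ => p x.1 - q x.2) :=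
    (hp.cont.comp continuous_fst).sub (hq.cont.comp continuous_snd)
  obtain ⟨L, hL, he⟩ := exists_continuousOn_eqOn_exp_comp hsc hopen (g := fun x => p x.1 - q x.2)
    hF.continuousOn (by rintro ⟨x, hx, h0⟩; exact hx (sub_eq_zero.mp h0))
  exact ⟨L, hL, fun x hx => he hx⟩

/-- increments of a continuous log along a path. -/
lemma inc_path {p q : ℝ → ℂ} {L : ℝ × ℝ → ℂ} (hL : Log2 p q L) (a b : ℝ → ℝ)
    (ha : Continuous a) (hb : Continuous b) (hne : ∀ r, p (a r) ≠ q (b r)) :
    inc (fun r => p (a r) - q (b r)) = L (a 1, b 1) - L (a 0, b 0) := by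
  refine inc_eq _ (fun r => L (a r, b r)) ?_ (fun r => hL.exp _ (hne r))
  exact hL.cont.comp_continuous (ha.prodMk hb) hne

lemma inc_neg (h : ℝ → ℂ) (hc : Continuous h) (h0 : ∀ x, h x ≠ 0) :
    inc (fun r => - h r) = inc h := by
  obtain ⟨f, hf, he⟩ := exists_log1 h hc h0
  rw [inc_eq h f hf he, inc_eq (fun r => - h r) (fun r => f r + Real.pi * I) (by fun_prop)
    (fun r => by rw [exp_add, he, exp_pi_mul_I]; ring)]
  ring

/-- The turning angle (times `i`, plus a real part) between two curves with common start. -/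
noncomputable def Th (u v : ℝ → ℂ) : ℂ := inc (fun r => u (1 - r) - v r)

/-- Two curves from `x` that meet only at their start. -/
def Meet (x : ℂ) (u v : ℝ → ℂ) : Prop :=
  u 0 = x ∧ v 0 = x ∧ ∀ s ∈ Icc (0 : ℝ) 1, ∀ t ∈ Icc (0 : ℝ) 1, u s = v t → s = 0 ∧ t = 0

lemma Meet.symm {x : ℂ} {u v : ℝ → ℂ} (h : Meet x u v) : Meet x v u :=
  ⟨h.2.1, h.1, fun s hs t ht e => ((h.2.2 t ht s hs e.symm)).symm⟩

lemma Meet.ends {x : ℂ} {u v : ℝ → ℂ} (h : Meet x u v) : Ends u v := fun s hs t ht e =>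
  ⟨Or.inl (h.2.2 s hs t ht e).1, Or.inl (h.2.2 s hs t ht e).2⟩

lemma Meet.ne {x : ℂ} {u v : ℝ → ℂ} (hu : Curve u) (hv : Curve v) (h : Meet x u v) {s t : ℝ}
    (hst : 0 < s ∨ 0 < t) : u s ≠ v t := by
  intro he
  rw [hu.clamp, hv.clamp] at he
  obtain ⟨h1, h2⟩ := h.2.2 _ (cl_mem s) _ (cl_mem t) he
  rw [cl_eq_zero_iff] at h1 h2
  rcases hst with h | h <;> linarith

lemma Th_eq {x : ℂ} {u v : ℝ → ℂ} (hu : Curve u) (hv : Curve v) (h : Meet x u v)
    {L : ℝ × ℝ → ℂ} (hL : Log2 u v L) : Th u v = L (0, 1) - L (1, 0) := by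
  have := inc_path hL (fun r => 1 - r) (fun r => r) (by fun_prop) (by fun_prop) (by
    intro r
    apply h.ne hu hv
    by_cases hr : 0 < r
    · exact Or.inr hr
    · left; linarith)
  simpa [Th] using this

lemma Th_symm {x : ℂ} {u v : ℝ → ℂ} (hu : Curve u) (hv : Curve v) (h : Meet x u v) :
    Th v u = - Th u v := by
  have hne : ∀ r : ℝ, u (1 - r) ≠ v r := fun r => by
    apply h.ne hu hv
    by_cases hr : 0 < r
    · exact Or.inr hr
    · left; linarith
  have hc : Continuous fun r : ℝ => u (1 - r) - v r :=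
    (hu.cont.comp (by fun_prop)).sub hv.cont
  obtain ⟨f, hf, he⟩ := exists_log1 _ hc (fun r => sub_ne_zero.mpr (hne r))
  unfold Th
  rw [inc_eq _ f hf he, inc_eq (fun r => v (1 - r) - u r) (fun r => f (1 - r) + Real.pi * I)
    (by fun_prop) (fun r => by
      rw [exp_add, he, exp_pi_mul_I]
      have : (1 : ℝ) - (1 - r) = r := by ring
      rw [this]; ring)]
  simp

/-- The rotation of three curves. -/
noncomputable def Rot (u v w : ℝ → ℂ) : ℂ := Th u v + Th v w + Th w u



lemma exp_Th {x : ℂ} {u v : ℝ → ℂ} (hu : Curve u) (hv : Curve v) (h : Meet x u v) :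
    Complex.exp (Th u v) = (x - v 1) / (u 1 - x) := by
  obtain ⟨L, hL⟩ := exists_log2' hu hv h.ends
  rw [Th_eq hu hv h hL, exp_sub, hL.exp (0, 1) (h.ne hu hv (Or.inr one_pos)),
    hL.exp (1, 0) (h.ne hu hv (Or.inl one_pos))]
  simp only [h.1, h.2.1]

/-- the increment of the log of `u - x` from time `s` to time `1`. -/
noncomputable def al (x : ℂ) (u : ℝ → ℂ) (s : ℝ) : ℂ := inc (fun r => u (s + cl r * (1 - s)) - x)

/-- for curves in a disc about `x` ending on its boundary: bound of the turning. -/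
lemma small {x : ℂ} {u v : ℝ → ℂ} (hu : Curve u) (hv : Curve v) (h : Meet x u v)
    {s₀ t₀ ρ : ℝ} (hs : s₀ ∈ Ioc (0 : ℝ) 1) (ht : t₀ ∈ Ioc (0 : ℝ) 1)
    (hus : ‖u s₀ - x‖ = ρ) (hvt : ‖v t₀ - x‖ = ρ)
    (hub : ∀ s ∈ Icc 0 s₀, ‖u s - x‖ ≤ ρ) (hvb : ∀ t ∈ Icc 0 t₀, ‖v t - x‖ ≤ ρ) :
    |(Th u v - (al x v t₀ - al x u s₀)).im| < Real.pi := by
  obtain ⟨L, hL⟩ := exists_log2' hu hv h.ends
  have hne := fun {s t : ℝ} (hst : 0 < s ∨ 0 < t) => h.ne hu hv hst
  -- L(0,1) - L(0,t₀)
  have e1 : al x v t₀ = L (0, 1) - L (0, t₀) := by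
    have := inc_path hL (fun _ => 0) (fun r => t₀ + cl r * (1 - t₀)) (by fun_prop)
      (continuous_const.add (cl_cont.mul continuous_const)) (by
        intro r
        apply hne; right
        have := cl_nonneg r
        nlinarith [ht.1, ht.2])
    simp only [cl_one, cl_zero, zero_mul, add_zero, one_mul] at this
    have h2 : t₀ + (1 - t₀) = 1 := by ring
    rw [h2] at this
    rw [← this, al, ← inc_neg]
    · congr 1; funext r; rw [h.1]; ring
    · exact (hv.cont.comp (continuous_const.add (cl_cont.mul continuous_const))).sub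
        continuous_const
    · intro r
      rw [sub_ne_zero, ← h.1]
      apply Ne.symm
      apply hne; right
      have := cl_nonneg r
      nlinarith [ht.1, ht.2]
  have e2 : al x u s₀ = L (1, 0) - L (s₀, 0) := by
    have := inc_path hL (fun r => s₀ + cl r * (1 - s₀)) (fun _ => 0)
      (continuous_const.add (cl_cont.mul continuous_const)) (by fun_prop) (by
        intro r
        apply hne; left
        have := cl_nonneg r
        nlinarith [hs.1, hs.2])
    simp only [cl_one, cl_zero, zero_mul, add_zero, one_mul] at this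
    have h2 : s₀ + (1 - s₀) = 1 := by ring
    rw [h2] at this
    rw [← this, al]
    congr 1; funext r; rw [h.2.1]
  have e3 : Th u v - (al x v t₀ - al x u s₀) =
      (L (s₀, t₀) - L (s₀, 0)) - (L (s₀, t₀) - L (0, t₀)) := by
    rw [e1, e2, Th_eq hu hv h hL]; ring
  -- generic bound
  have gen : ∀ (a : ℂ) (w : ℝ → ℂ) (ℓ : ℝ → ℂ) (hw : Continuous w) (hℓ : Continuous ℓ)
      (hax : a - x ≠ 0) (hne' : ∀ r, a - w r ≠ 0) (hb : ∀ r, ‖w r - x‖ ≤ ‖a - x‖)
      (he : ∀ r, Complex.exp (ℓ r) = (a - w r) / (a - x)) (h0 : w 0 = x),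
      |(ℓ 1 - ℓ 0).im| < Real.pi / 2 := by
    intro a w ℓ hw hℓ hax hne' hb he h0
    have hre : ∀ r, 0 < ((a - w r) / (a - x)).re := by
      intro r
      have e : (a - w r) / (a - x) = 1 - (w r - x) / (a - x) := by
        field_simp; ring
      rw [e]
      set ζ := (w r - x) / (a - x) with hζ
      have hn : ‖ζ‖ ≤ 1 := by
        rw [hζ, norm_div]
        exact div_le_one_of_le₀ (hb r) (norm_nonneg _)
      have hζ1 : ζ ≠ 1 := by
        intro h1
        rw [hζ, div_eq_one_iff_eq hax] at h1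
        exact hne' r (by linear_combination -h1)
      have hsq : ζ.re ^ 2 + ζ.im ^ 2 ≤ 1 := by
        have := Complex.sq_norm ζ
        rw [Complex.normSq_apply] at this
        nlinarith [norm_nonneg ζ]
      rw [sub_re, one_re]
      by_contra hcon
      push Not at hcon
      apply hζ1
      have h1 : ζ.re = 1 := by nlinarith [sq_nonneg ζ.im, sq_nonneg (ζ.re - 1)]
      have h2 : ζ.im = 0 := by
        rw [h1] at hsq
        have : ζ.im ^ 2 ≤ 0 := by linarith
        exact pow_eq_zero_iff (two_ne_zero) |>.mp (le_antisymm this (sq_nonneg _))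
      exact Complex.ext (by simpa using h1) (by simpa using h2)
    have hc : Continuous fun r => (a - w r) / (a - x) := (continuous_const.sub hw).div_const _
    have i1 := inc_eq (fun r => (a - w r) / (a - x)) ℓ hℓ he
    have i2 := inc_eq (fun r => (a - w r) / (a - x)) (fun r => Complex.log ((a - w r) / (a - x)))
      (hc.clog fun r => Or.inl (hre r)) (fun r => exp_log (by
        intro h; have := hre r; rw [h] at this; simp at this))
    rw [← i1, i2, h0, div_self hax, Complex.log_one, sub_zero, Complex.log_im]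
    rw [Complex.abs_arg_lt_pi_div_two_iff]
    exact Or.inl (hre 1)
  have hx1 : u s₀ - x ≠ 0 := by
    rw [sub_ne_zero, ← h.2.1]; exact hne (Or.inl hs.1)
  have hx2 : v t₀ - x ≠ 0 := by
    rw [sub_ne_zero, ← h.1]; exact (hne (Or.inr ht.1)).symm
  have b1 : |(L (s₀, t₀) - L (s₀, 0)).im| < Real.pi / 2 := by
    have := gen (u s₀) (fun r => v (t₀ * cl r)) (fun r => L (s₀, t₀ * cl r) - L (s₀, 0))
      (hv.cont.comp (continuous_const.mul cl_cont))
      ((hL.cont.comp_continuous (continuous_const.prodMk (continuous_const.mul cl_cont))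
        (fun r => hne (Or.inl hs.1))).sub continuous_const)
      hx1 (fun r => sub_ne_zero.mpr (hne (Or.inl hs.1)))
      (fun r => by
        rw [hus]
        apply hvb
        exact ⟨mul_nonneg ht.1.le (cl_nonneg r), by nlinarith [cl_le r, cl_nonneg r, ht.1]⟩)
      (fun r => by
        rw [exp_sub, hL.exp _ (hne (Or.inl hs.1)), hL.exp _ (hne (Or.inl hs.1))]
        simp only [h.2.1])
      (by simp [h.2.1])
    simpa using this
  have b2 : |(L (s₀, t₀) - L (0, t₀)).im| < Real.pi / 2 := by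
    have := gen (v t₀) (fun r => u (s₀ * cl r)) (fun r => L (s₀ * cl r, t₀) - L (0, t₀))
      (hu.cont.comp (continuous_const.mul cl_cont))
      ((hL.cont.comp_continuous ((continuous_const.mul cl_cont).prodMk continuous_const)
        (fun r => hne (Or.inr ht.1))).sub continuous_const)
      hx2 (fun r => sub_ne_zero.mpr (hne (Or.inr ht.1)).symm)
      (fun r => by
        rw [hvt]
        apply hub
        exact ⟨mul_nonneg hs.1.le (cl_nonneg r), by nlinarith [cl_le r, cl_nonneg r, hs.1]⟩)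
      (fun r => by
        rw [exp_sub, hL.exp _ (hne (Or.inr ht.1)), hL.exp _ (hne (Or.inr ht.1))]
        simp only [h.1]
        rw [← neg_div_neg_eq]
        congr 1 <;> ring)
      (by simp [h.1])
    simpa using this
  rw [e3, sub_im]
  have := abs_sub (L (s₀, t₀) - L (s₀, 0)).im (L (s₀, t₀) - L (0, t₀)).im
  have p0 := Real.pi_pos
  calc _ ≤ _ := this
    _ < Real.pi / 2 + Real.pi / 2 := add_lt_add b1 b2
    _ = Real.pi := by ring

/-- first time at distance `ρ`. -/
lemma exists_first {x : ℂ} {u : ℝ → ℂ} (hu : Curve u) (h0 : u 0 = x) {ρ : ℝ} (hρ : 0 < ρ)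
    (h1 : ρ ≤ ‖u 1 - x‖) : ∃ s ∈ Ioc (0 : ℝ) 1, ‖u s - x‖ = ρ ∧ ∀ r ∈ Icc 0 s, ‖u r - x‖ ≤ ρ := by
  set S : Set ℝ := {s | s ∈ Icc (0 : ℝ) 1 ∧ ρ ≤ ‖u s - x‖} with hS
  have hcont : Continuous fun s => ‖u s - x‖ := (hu.cont.sub continuous_const).norm
  have hcl : IsClosed S := isClosed_Icc.inter (isClosed_le continuous_const hcont)
  have hne : S.Nonempty := ⟨1, ⟨by norm_num, le_rfl⟩, h1⟩
  have hbdd : BddBelow S := ⟨0, fun s hs => hs.1.1⟩
  have hmem := hcl.csInf_mem hne hbdd
  set s := sInf S with hs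
  have hlt : ∀ r, 0 ≤ r → r < s → ‖u r - x‖ < ρ := by
    intro r hr hrs
    by_contra hcon
    push Not at hcon
    have : r ∈ S := ⟨⟨hr, hrs.le.trans hmem.1.2⟩, hcon⟩
    exact absurd (csInf_le hbdd this) (not_le.mpr hrs)
  have hs0 : 0 < s := by
    rcases eq_or_lt_of_le hmem.1.1 with h | h
    · exfalso
      have := hmem.2
      rw [← h, h0, sub_self, norm_zero] at this
      linarith
    · exact h
  have hle : ‖u s - x‖ ≤ ρ := by
    have h2 : s ∈ closure (Ico 0 s) := by
      rw [closure_Ico hs0.ne]; exact ⟨hs0.le, le_rfl⟩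
    have h3 : closure (Ico 0 s) ⊆ {r | ‖u r - x‖ ≤ ρ} :=
      closure_minimal (fun r hr => (hlt r hr.1 hr.2).le) (isClosed_le hcont continuous_const)
    exact h3 h2
  refine ⟨s, ⟨hs0, hmem.1.2⟩, le_antisymm hle hmem.2, ?_⟩
  intro r hr
  rcases eq_or_lt_of_le hr.2 with h | h
  · rw [h]; exact hle
  · exact (hlt r hr.1 h).le

/-- **The rotation of three curves that meet only in their common start is `± π i`.** -/
theorem Rot_eq {x : ℂ} {u v w : ℝ → ℂ} (hu : Curve u) (hv : Curve v) (hw : Curve w)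
    (huv : Meet x u v) (hvw : Meet x v w) (hwu : Meet x w u) :
    Rot u v w = Real.pi * I ∨ Rot u v w = - (Real.pi * I) := by
  have hx1 : u 1 - x ≠ 0 := by
    rw [sub_ne_zero, ← huv.2.1]; exact huv.ne hu hv (Or.inl one_pos)
  have hx2 : v 1 - x ≠ 0 := by
    rw [sub_ne_zero, ← hvw.2.1]; exact hvw.ne hv hw (Or.inl one_pos)
  have hx3 : w 1 - x ≠ 0 := by
    rw [sub_ne_zero, ← hwu.2.1]; exact hwu.ne hw hu (Or.inl one_pos)
  have hexp : Complex.exp (Rot u v w) = Complex.exp (Real.pi * I) := by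
    rw [Rot, exp_add, exp_add, exp_Th hu hv huv, exp_Th hv hw hvw, exp_Th hw hu hwu,
      exp_pi_mul_I]
    field_simp
    ring
  obtain ⟨n, hn⟩ := exp_eq_exp_iff_exists_int.mp hexp
  -- bound
  set ρ := min (‖u 1 - x‖) (min (‖v 1 - x‖) (‖w 1 - x‖)) with hρ
  have hρ0 : 0 < ρ := lt_min (norm_pos_iff.mpr hx1) (lt_min (norm_pos_iff.mpr hx2)
    (norm_pos_iff.mpr hx3))
  obtain ⟨s, hs, hs1, hs2⟩ := exists_first hu huv.1 hρ0 (min_le_left _ _)
  obtain ⟨t, ht, ht1, ht2⟩ := exists_first hv hvw.1 hρ0 ((min_le_right _ _).trans (min_le_left _ _))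
  obtain ⟨r, hr, hr1, hr2⟩ := exists_first hw hwu.1 hρ0
    ((min_le_right _ _).trans (min_le_right _ _))
  have b1 := small hu hv huv hs ht hs1 ht1 hs2 ht2
  have b2 := small hv hw hvw ht hr ht1 hr1 ht2 hr2
  have b3 := small hw hu hwu hr hs hr1 hs1 hr2 hs2
  have hsum : (Rot u v w).im = (Th u v - (al x v t - al x u s)).im +
      (Th v w - (al x w r - al x v t)).im + (Th w u - (al x u s - al x w r)).im := by
    rw [Rot, ← add_im, ← add_im]; congr 1; ring
  have him : (Rot u v w).im = (2 * n + 1) * Real.pi := by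
    have e : Rot u v w = (((2 * n + 1) * Real.pi : ℝ) : ℂ) * I := by
      rw [hn]; push_cast; ring
    rw [e, Complex.im_ofReal_mul, I_im, mul_one]
  rw [abs_lt] at b1 b2 b3
  have p0 := Real.pi_pos
  have hlt : ((2 * n + 1 : ℤ) : ℝ) < 3 := by
    have : (2 * (n : ℝ) + 1) * Real.pi < 3 * Real.pi := by rw [← him, hsum]; linarith [b1.2, b2.2, b3.2]
    push_cast
    exact lt_of_mul_lt_mul_right this p0.le
  have hgt : (-3 : ℝ) < ((2 * n + 1 : ℤ) : ℝ) := by
    have : (-3) * Real.pi < (2 * (n : ℝ) + 1) * Real.pi := by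
      rw [← him, hsum]; linarith [b1.1, b2.1, b3.1]
    push_cast
    exact lt_of_mul_lt_mul_right this p0.le
  have h1 : (2 * n + 1 : ℤ) < 3 := by exact_mod_cast hlt
  have h2 : (-3 : ℤ) < 2 * n + 1 := by exact_mod_cast hgt
  have h3 : n = 0 ∨ n = -1 := by omega
  rcases h3 with h | h
  · left; rw [hn, h]; simp
  · right; rw [hn, h]; push_cast; ring

/-- Concatenation of `a`, `m` and the reverse of `b`. -/
def cat (a m b : ℝ → ℂ) (s : ℝ) : ℂ := a (3 * s) + (m (3 * s - 1) - m 0) + (b (3 - 3 * s) - b 1)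

section cat
variable {a m b : ℝ → ℂ}

lemma cat_curve (ha : Curve a) (hm : Curve m) (hb : Curve b) : Curve (cat a m b) := by
  refine ⟨?_, ?_⟩
  · unfold cat
    exact ((ha.cont.comp (by fun_prop)).add ((hm.cont.comp (by fun_prop)).sub
      continuous_const)).add ((hb.cont.comp (by fun_prop)).sub continuous_const)
  · intro t
    unfold cat
    by_cases h0 : t ≤ 0
    · rw [cl_of_nonpos h0, ha.clamp, hm.clamp, hb.clamp, cl_of_nonpos (by linarith),
        cl_of_nonpos (by linarith), cl_of_one_le (by linarith)]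
      rw [ha.clamp (3 * 0), hm.clamp (3 * 0 - 1), hb.clamp (3 - 3 * 0), cl_of_nonpos (by norm_num),
        cl_of_nonpos (by norm_num), cl_of_one_le (by norm_num)]
    · by_cases h1 : 1 ≤ t
      · rw [cl_of_one_le h1, ha.clamp, hm.clamp, hb.clamp, cl_of_one_le (by linarith),
          cl_of_one_le (by linarith), cl_of_nonpos (by linarith)]
        rw [ha.clamp (3 * 1), hm.clamp (3 * 1 - 1), hb.clamp (3 - 3 * 1),
          cl_of_one_le (by norm_num), cl_of_one_le (by norm_num), cl_of_nonpos (by norm_num)]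
      · push Not at h0 h1
        rw [cl_of_mem ⟨h0.le, h1.le⟩]

lemma cat_left (ha : Curve a) (hm : Curve m) (hb : Curve b) {s : ℝ} (hs : s ≤ 1 / 3) :
    cat a m b s = a (3 * s) := by
  unfold cat
  rw [hm.clamp (3 * s - 1), hb.clamp (3 - 3 * s), cl_of_nonpos (by linarith),
    cl_of_one_le (by linarith)]
  ring

lemma cat_mid (ha : Curve a) (hm : Curve m) (hb : Curve b) (h1 : a 1 = m 0) {s : ℝ}
    (hs : 1 / 3 ≤ s) (hs' : s ≤ 2 / 3) : cat a m b s = m (3 * s - 1) := by
  unfold cat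
  rw [ha.clamp (3 * s), hb.clamp (3 - 3 * s), cl_of_one_le (by linarith),
    cl_of_one_le (by linarith), h1]
  ring

lemma cat_right (ha : Curve a) (hm : Curve m) (hb : Curve b) (h1 : a 1 = m 0) (h2 : m 1 = b 1)
    {s : ℝ} (hs : 2 / 3 ≤ s) : cat a m b s = b (3 - 3 * s) := by
  unfold cat
  rw [ha.clamp (3 * s), hm.clamp (3 * s - 1), cl_of_one_le (by linarith),
    cl_of_one_le (by linarith), h1, h2]
  ring

end cat

/-- The difference of two branches of the same function along a path. -/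
lemma branch {p q p' q' : ℝ → ℂ} {L L' : ℝ × ℝ → ℂ} (hL : Log2 p q L) (hL' : Log2 p' q' L')
    (a b a' b' : ℝ → ℝ) (ha : Continuous a) (hb : Continuous b) (ha' : Continuous a')
    (hb' : Continuous b') (hne : ∀ r, p (a r) ≠ q (b r)) (hne' : ∀ r, p' (a' r) ≠ q' (b' r))
    (he : ∀ r, p (a r) - q (b r) = p' (a' r) - q' (b' r)) :
    L (a 1, b 1) - L (a 0, b 0) = L' (a' 1, b' 1) - L' (a' 0, b' 0) := by
  rw [← inc_path hL a b ha hb hne, ← inc_path hL' a' b' ha' hb' hne']
  congr 1; funext r; exact he r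

lemma branch_neg {p q p' q' : ℝ → ℂ} {L L' : ℝ × ℝ → ℂ} (hL : Log2 p q L) (hL' : Log2 p' q' L')
    (a b a' b' : ℝ → ℝ) (ha : Continuous a) (hb : Continuous b) (ha' : Continuous a')
    (hb' : Continuous b') (hp : Continuous p) (hq : Continuous q)
    (hne : ∀ r, p (a r) ≠ q (b r)) (hne' : ∀ r, p' (a' r) ≠ q' (b' r))
    (he : ∀ r, -(p (a r) - q (b r)) = p' (a' r) - q' (b' r)) :
    L (a 1, b 1) - L (a 0, b 0) = L' (a' 1, b' 1) - L' (a' 0, b' 0) := by
  rw [← inc_path hL a b ha hb hne, ← inc_path hL' a' b' ha' hb' hne', ← inc_neg]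
  · congr 1; funext r; exact he r
  · exact (hp.comp ha).sub (hq.comp hb)
  · exact fun r => sub_ne_zero.mpr (hne r)

end Pool.Agent.H235R2.Turn
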